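import Pool.Agent.H89.L.W5h38_TV_Built

/-!
# The torus theorem for properties closed under closed-open decompositions and products with `𝔸^1`
-/

set_option autoImplicit false

open CategoryTheory AlgebraicGeometry MvPolynomial Pool.Agent.Y116.UV Pool.Agent.Z125.UN
  Pool.Agent.W5h38.TV

namespace Pool.Agent.W5h38.TW

/-- The property `P` of schemes of finite type over `R` is closed under closed-open decompositions, and
it passes from an affine scheme to its product with the affine line. -/
structure Wk {R : Type} [CommRing R] (sep : Prop) (P : Sch R → Prop) : Prop where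
  iso : ∀ {X Y : Sch R}, FT sep X → Nonempty (X ≅ Y) → P X → P Y
  total : ∀ {Z X U : Sch R} (i : Z ⟶ X) (j : U ⟶ X), FT sep X → IsTriple i j → P Z → P U → P X
  opened : ∀ {Z X U : Sch R} (i : Z ⟶ X) (j : U ⟶ X), FT sep X → IsTriple i j → P Z → P X → P U
  closed : ∀ {Z X U : Sch R} (i : Z ⟶ X) (j : U ⟶ X), FT sep X → IsTriple i j → P X → P U → P Z
  poly : ∀ (A : Type) [CommRing A] [Algebra R A] [Algebra.FiniteType R A], P (aff R A) →
    P (aff R (Polynomial A))

section basic

variable {R : Type} [CommRing R] {sep : Prop} {P : Sch R → Prop} (hP : Wk sep P)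

include hP

lemma iso_alg {A B : Type} [CommRing A] [CommRing B] [Algebra R A] [Algebra R B]
    [Algebra.FiniteType R A] (e : A ≃ₐ[R] B) (h : P (aff R A)) : P (aff R B) :=
  hP.iso (ft_aff sep) ⟨(affIso e).symm⟩ h

lemma pc_total {σ κ : Type} [Finite σ] {G : κ → MvPolynomial σ R} {w e : MvPolynomial σ R}
    (hc : P (aff R (Pc (adj G e) w))) (ho : P (aff R (Pc G (w * e)))) : P (aff R (Pc G w)) :=
  hP.total _ _ (ft_aff sep) (triple_away (pc G w e))
    (iso_alg hP (cloE G w e).symm hc) (iso_alg hP (opnE G w e).symm ho)

/-- The property is true for the product with the torus. -/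
lemma p_laurent {A : Type} [CommRing A] [Algebra R A] [Algebra.FiniteType R A] (h : P (aff R A)) :
    P (aff R (LaurentPolynomial A)) := by
  have hft : Algebra.FiniteType R (Polynomial A) :=
    Algebra.FiniteType.trans (S := A) inferInstance inferInstance
  have h1 : P (aff R (Polynomial A)) := hP.poly A h
  have h2 : P (aff R (Polynomial A ⧸ Ideal.span {(Polynomial.X : Polynomial A)})) := by
    have e := (Polynomial.quotientSpanXSubCAlgEquiv (0 : A)).restrictScalars R
    rw [Polynomial.C_0, sub_zero] at e
    exact iso_alg hP e.symm h
  have h3 : P (aff R (Localization.Away (Polynomial.X : Polynomial A))) :=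
    hP.opened _ _ (ft_aff sep) (triple_away _) h2 h1
  have hft2 : Algebra.FiniteType R (Localization.Away (Polynomial.X : Polynomial A)) :=
    Algebra.FiniteType.trans (S := Polynomial A) inferInstance inferInstance
  let e := IsLocalization.algEquiv (Submonoid.powers (Polynomial.X : Polynomial A))
    (Localization.Away (Polynomial.X : Polynomial A)) (LaurentPolynomial A)
  let e2 : Localization.Away (Polynomial.X : Polynomial A) ≃ₐ[R] LaurentPolynomial A :=
    AlgEquiv.ofRingEquiv (f := e.toRingEquiv) (by
      intro r
      change e (algebraMap R (Localization.Away (Polynomial.X : Polynomial A)) r) = _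
      rw [IsScalarTower.algebraMap_apply R (Polynomial A)
        (Localization.Away (Polynomial.X : Polynomial A)), e.commutes,
        LaurentPolynomial.algebraMap_eq_toLaurent, LaurentPolynomial.algebraMap_apply]
      change Polynomial.toLaurent (Polynomial.C (algebraMap R A r)) = _
      rw [Polynomial.toLaurent_C])
  exact iso_alg hP e2 h3

end basic

section units

variable {R : Type} [CommRing R] {sep : Prop} {P : Sch R → Prop} (hP : Wk sep P) {n : ℕ}
  (hn : ∀ (A : Type) [CommRing A] [Algebra R A] [Algebra.FiniteType R A], ringKrullDim A ≤ n →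
    P (aff R A))

include hP hn

/-- The case of the points with all coordinates different from zero. -/
theorem p_units : ∀ (m : ℕ) {σ κ : Type} [Fintype σ] (G : κ → MvPolynomial σ R)
    (w : σ → Fin m → ℤ), (∀ k, ∃ d, IsWeightedHomogeneous w (G k) d) →
    ringKrullDim (Pc G (xx R σ)) ≤ ((n + rk w : ℕ) : WithBot ℕ∞) → P (aff R (Pc G (xx R σ))) := by
  intro m
  induction m with
  | zero =>
    intro σ κ _ G w _ hd
    rw [rk_zero, add_zero] at hd
    exact hn _ hd
  | succ m ih =>
    intro σ κ _ G w hG hd
    by_cases h0 : ∀ i, w i 0 = 0
    · refine ih G (fun i j => w i j.succ) (fun k => ?_) ?_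
      · obtain ⟨d, hd⟩ := hG k
        have hc : ∃ e, IsWeightedHomogeneous (fun _ : σ => (0 : ℤ)) (G k) e := by
          refine ⟨0, ?_⟩
          intro s _
          rw [weight_sum]
          simp
        obtain ⟨e, he⟩ := hc
        exact ⟨_, hom_tail w (fun i j => w i j.succ) (fun _ => 0) 0 (by simp) hd he⟩
      · refine hd.trans ?_
        have h1 : rk w ≤ rk (fun (i : σ) (j : Fin m) => w i j.succ) := by
          let ι : (Fin m → ℚ) →ₗ[ℚ] (Fin (m + 1) → ℚ) :=
            { toFun := fun v => Fin.cons 0 v
              map_add' := fun a b => by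
                funext j
                refine Fin.cases ?_ (fun j => ?_) j <;> simp
              map_smul' := fun a b => by
                funext j
                refine Fin.cases ?_ (fun j => ?_) j <;> simp }
          have h2 : Submodule.span ℚ (Set.range fun (i : σ) (j : Fin (m + 1)) => (w i j : ℚ)) ≤
              (Submodule.span ℚ (Set.range fun (i : σ) (j : Fin m) => (w i j.succ : ℚ))).map ι := by
            rw [Submodule.span_le]
            rintro _ ⟨i, rfl⟩
            refine ⟨_, Submodule.subset_span ⟨i, rfl⟩, ?_⟩
            funext j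
            refine Fin.cases ?_ (fun j => ?_) j
            · change (0 : ℚ) = (w i 0 : ℚ)
              rw [h0]
              simp
            · rfl
          exact (Submodule.finrank_mono h2).trans (Submodule.finrank_map_le _ _)
        exact_mod_cast Nat.add_le_add_left h1 n
    · obtain ⟨i0, hi0⟩ := not_forall.mp h0
      obtain ⟨g, a, c, hc, hag, hac⟩ := exists_gcd (fun i => w i 0) i0 hi0
      have hg : g ≠ 0 := by
        rintro rfl
        exact hi0 (by have := hc i0; simpa using this)
      -- the weight of the monomial
      let y : Fin (m + 1) → ℤ := fun j => ∑ i, a i * w i j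
      let w' : σ → Fin m → ℤ := fun i j => w i j.succ - c i * y j.succ
      have hcG : ∀ k, ∃ e, IsWeightedHomogeneous c (G k) e := by
        intro k
        obtain ⟨d, hd⟩ := hG k
        exact hom_div w c hg hc hd
      -- the equation of the monomial
      have hy : ∀ j, ∑ i, a i * w' i j = 0 := by
        intro j
        have h1 : ∀ i, a i * w' i j = a i * w i j.succ - (a i * c i) * y j.succ := by
          intro i
          simp only [w']
          ring
        simp only [h1, Finset.sum_sub_distrib]
        rw [← Finset.sum_mul, hac]
        simp [y]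
      have hB : P (aff R (Pc (adj G (yrel R a)) (xx R σ))) := by
        refine ih (adj G (yrel R a)) w' ?_ ?_
        · rintro (_ | k)
          · exact hom_yrel w' a hy
          · obtain ⟨d, hd⟩ := hG k
            obtain ⟨e, he⟩ := hcG k
            exact ⟨_, hom_tail w w' c y (fun i j => rfl) hd he⟩
        · have h1 := dim_laurent (Pc (adj G (yrel R a)) (xx R σ))
          have h2 : ringKrullDim (LaurentPolynomial (Pc (adj G (yrel R a)) (xx R σ))) =
              ringKrullDim (Pc G (xx R σ)) :=
            (ringKrullDim_eq_of_ringEquiv (lauE G c a hcG hac).toRingEquiv).symm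
          have h3 : rk w ≤ rk w' + 1 := rk_le w w' c y (fun i => by
            rw [hc i]
            congr 1
            exact hag.symm) (fun i j => rfl)
          rw [h2] at h1
          have h4 : ringKrullDim (Pc (adj G (yrel R a)) (xx R σ)) + 1 ≤
              ((n + rk w' : ℕ) : WithBot ℕ∞) + 1 := by
            refine h1.trans (hd.trans ?_)
            have h5 : n + rk w ≤ n + rk w' + 1 := by omega
            exact_mod_cast h5
          exact le_of_succ _ _ h4
      have hft : Algebra.FiniteType R (LaurentPolynomial (Bz G a)) :=
        Algebra.FiniteType.equiv inferInstance (lauE G c a hcG hac)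
      exact iso_alg hP (lauE G c a hcG hac).symm (p_laurent hP hB)

end units

section split

variable {R : Type} [CommRing R] {σ : Type}

variable {sep : Prop} {P : Sch R → Prop} (hP : Wk sep P)

include hP

omit hP in
lemma pi_congr {I J : Set (MvPolynomial σ R)} {w w' : MvPolynomial σ R} (h : I = J)
    (hw : w = w') (hI : P (aff R (PI I w))) : P (aff R (PI J w')) := by
  subst h hw
  exact hI

/-- decomposition by the coordinates in `J` -/
lemma split [Finite σ] [DecidableEq σ] (J : Finset σ) : ∀ (I : Set (MvPolynomial σ R)) (S : Finset σ),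
    (∀ T ⊆ J, P (aff R (PI (I ∪ X '' ((J \ T : Finset σ) : Set σ)) (∏ i ∈ S ∪ T, X i)))) →
    Disjoint S J → P (aff R (PI I (∏ i ∈ S, X i))) := by
  induction J using Finset.induction_on with
  | empty =>
    intro I S h _
    exact pi_congr (by simp) (by simp) (h ∅ (by simp))
  | insert j J hj ih =>
    intro I S h hd
    have hjS : j ∉ S := fun h => (Finset.disjoint_left.mp hd) h (Finset.mem_insert_self j J)
    have hdJ : Disjoint S J := Finset.disjoint_of_subset_right (Finset.subset_insert j J) hd
    refine pc_total hP (e := X j) ?_ ?_
    · have h1 : P (aff R (PI (insert (X j) I) (∏ i ∈ S, X i))) := by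
        refine ih _ S (fun T hT => ?_) hdJ
        have hjT : j ∉ T := fun h => hj (hT h)
        refine pi_congr ?_ rfl (h T (hT.trans (Finset.subset_insert j J)))
        have h2 : insert j J \ T = insert j (J \ T) := by
          rw [Finset.insert_sdiff_of_notMem _ hjT]
        rw [h2, Finset.coe_insert, Set.image_insert_eq, Set.union_insert, Set.insert_union]
      refine iso_alg hP (pcCongr _ ?_) h1
      rw [range_adj, Subtype.range_coe, Subtype.range_coe]
    · have h1 : P (aff R (PI I (∏ i ∈ insert j S, X i))) := by
        refine ih _ (insert j S) (fun T hT => ?_) ?_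
        · have hjT : j ∉ T := fun h => hj (hT h)
          refine pi_congr ?_ ?_ (h (insert j T) (Finset.insert_subset_insert j hT))
          · have h2 : insert j J \ insert j T = J \ T := by
              ext i
              simp only [Finset.mem_sdiff, Finset.mem_insert]
              constructor
              · rintro ⟨h3 | h3, h4⟩
                · exact absurd (Or.inl h3) h4
                · exact ⟨h3, fun h5 => h4 (Or.inr h5)⟩
              · rintro ⟨h3, h4⟩
                refine ⟨Or.inr h3, ?_⟩
                rintro (h5 | h5)
                · exact hj (h5 ▸ h3)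
                · exact h4 h5
            rw [h2]
          · rw [Finset.union_insert, Finset.insert_union]
        · rw [Finset.disjoint_insert_left]
          exact ⟨hj, hdJ⟩
      refine pi_congr rfl ?_ h1
      rw [Finset.prod_insert hjS, mul_comm]

end split

section main

variable {R : Type} [CommRing R] {sep : Prop} {P : Sch R → Prop} (hP : Wk sep P) {n : ℕ}
  (hn : ∀ (A : Type) [CommRing A] [Algebra R A] [Algebra.FiniteType R A], ringKrullDim A ≤ n →
    P (aff R A))

include hP hn

/-- **Closed subschemes of affine spaces stable under a torus.** -/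
theorem p_torus {σ κ : Type} [Fintype σ] [DecidableEq σ] {m : ℕ} (G : κ → MvPolynomial σ R)
    (w : σ → Fin m → ℤ) (hG : ∀ k, ∃ d, IsWeightedHomogeneous w (G k) d)
    (hd : ∀ S : Finset σ, ringKrullDim (PI (IS G S) (∏ i ∈ S, X i)) ≤
      ((n + rk (fun i : S => w i) : ℕ) : WithBot ℕ∞)) :
    P (aff R (MvPolynomial σ R ⧸ Ideal.span (Set.range G))) := by
  have h1 : P (aff R (PI (Set.range G) (∏ i ∈ (∅ : Finset σ), X i))) := by
    refine split hP Finset.univ _ ∅ (fun T _ => ?_) (Finset.disjoint_empty_left _)
    have h2 : P (aff R (Pc (GS G T) (xx R T))) := by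
      refine p_units hP hn m (GS G T) (fun i : T => w i) (fun k => ?_) ?_
      · obtain ⟨d, hd⟩ := hG k
        exact ⟨d, hom_GS T w hd⟩
      · rw [ringKrullDim_eq_of_ringEquiv (strE G T).toRingEquiv]
        exact hd T
    refine pi_congr ?_ ?_ (iso_alg hP (strE G T) h2)
    · rw [IS, Finset.coe_sdiff, Finset.coe_univ, Set.compl_eq_univ_sdiff]
    · rw [Finset.empty_union]
  rw [Finset.prod_empty] at h1
  have h3 : P (aff R (Pc G 1)) := iso_alg hP (pcCongr 1 (by rw [Subtype.range_coe])) h1
  exact iso_alg hP (oneE G).symm h3

end main

section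

variable {k : Type} [CommRing k] {P : Sch k → Prop} (hP : Wk True P) {n : ℕ}

include hP

/-- from dimension at most `n` to complexity at most `n` -/
theorem built (hn : ∀ (A : Type) [CommRing A] [Algebra k A] [Algebra.FiniteType k A],
    ringKrullDim A ≤ n → P (aff k A)) {X : Sch k} (hX : Built n X) : P X := by
  induction hX with
  | torus X h =>
    obtain ⟨N, m, κ, G, w, hG, hd, rfl⟩ := h
    refine p_torus hP hn G w hG fun S => ?_
    rw [rk_eq, dim_PI]
    exact hd S
  | iso X Y hX e _ ih => exact hP.iso hX e ih
  | total Z X U i j hX ht _ _ hZ hU => exact hP.total i j hX ht hZ hU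
  | opened Z X U i j hX ht _ _ hZ hX' => exact hP.opened i j hX ht hZ hX'
  | closed Z X U i j hX ht _ _ hX' hU => exact hP.closed i j hX ht hX' hU

end

end Pool.Agent.W5h38.TW
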