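import Pool.Agent.H91.L.W5h93_EX_Bnd

/-!
# Classes of models and trilinear forms
-/

set_option autoImplicit false

open CategoryTheory AlgebraicGeometry Pool.Agent.Y116.UV Pool.Agent.Z125.UN Pool.Agent.W5h93.EV
  Topology TopologicalSpace

namespace Pool.Agent.W5h93.EX

variable {k : Type} [Field k]

lemma IsClass.ft {Q : Sch k → Prop} (hQ : IsClass Q) {X : Sch k} (hX : Q X) : FT True X where
  locallyOfFiniteType := by
    have := hQ.proper X hX
    infer_instance
  quasiCompact := by
    have := hQ.proper X hX
    infer_instance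
  separated _ := by
    have := hQ.proper X hX
    infer_instance

section

variable {P : Sch k → Prop} (hP : Bnd True P)

include hP

/-- An open subscheme of the spectrum of a domain which has a model. -/
lemma model_step {Q : Sch k → Prop} (hQ : IsClass Q) {m : ℕ} (hM : ModelsIn Q m)
    (hX : ForClass Q P m)
    (ih : ∀ Z : Sch k, FT True Z → topologicalKrullDim Z.left + 1 ≤ m → P Z)
    (B : Type) [CommRing B] [IsDomain B] [Algebra k B] [Algebra.FiniteType k B]
    (hB : ringKrullDim B ≤ m) : ∃ w : B, w ≠ 0 ∧ P (aff k (Localization.Away w)) := by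
  obtain ⟨d, hd⟩ : ∃ d : ℕ, ringKrullDim B = d := by
    have h0 : 0 ≤ ringKrullDim B := ringKrullDim_nonneg_of_nontrivial
    generalize ringKrullDim B = x at h0 hB
    induction x using WithBot.recBotCoe with
    | bot => exact absurd h0 (by decide)
    | coe e =>
      have h1 : e ≤ (m : ℕ∞) := by exact_mod_cast hB
      obtain ⟨d, hd⟩ := ENat.ne_top_iff_exists.mp (ne_top_of_le_ne_top (ENat.natCast_ne_top m) h1)
      exact ⟨d, by rw [← hd]; rfl⟩
  have hdm : d ≤ m := by
    rw [hd] at hB
    exact_mod_cast hB
  obtain ⟨X, hQX, ⟨V, i, j, ⟨v⟩, hi, hj⟩, hdim⟩ := hM B d hdm hd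
  have hi' : IsOpenImmersion i.left := hi
  have hj' : IsOpenImmersion j.left := hj
  have hft := hQ.ft hQX
  -- a basic open subset of the image of `V`
  let x : PrimeSpectrum B := i.left v
  have hO : IsOpen (Set.range i.left) := i.left.isOpenEmbedding.isOpen_range
  obtain ⟨_, ⟨w, rfl⟩, hxw, hw⟩ :=
    (PrimeSpectrum.isTopologicalBasis_basic_opens (R := B)).exists_subset_of_mem_open
      (show x ∈ (Set.range i.left : Set (PrimeSpectrum B)) from ⟨v, rfl⟩) hO
  have hw0 : w ≠ 0 := by
    rintro rfl
    exact hxw (Ideal.zero_mem _)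
  refine ⟨w, hw0, ?_⟩
  have hft' : Algebra.FiniteType k (Localization.Away w) :=
    Algebra.FiniteType.trans (S := B) inferInstance inferInstance
  let l : aff k (Localization.Away w) ⟶ aff k B :=
    affMap (IsScalarTower.toAlgHom k B (Localization.Away w))
  have hl : IsOpenImmersion l.left :=
    Scheme.isOpenImmersion_SpecMap_localizationAway (R := .of B) w
  have hlr : Set.range l.left = (PrimeSpectrum.basicOpen w : Set (PrimeSpectrum B)) :=
    PrimeSpectrum.localization_away_comap_range _ w
  have hsub : Set.range l.left ⊆ Set.range i.left := by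
    rw [hlr]
    exact hw
  let g0 : (aff k (Localization.Away w)).left ⟶ V.left := IsOpenImmersion.lift i.left l.left hsub
  have hg0 : g0 ≫ i.left = l.left := IsOpenImmersion.lift_fac _ _ _
  have hg0o : IsOpenImmersion g0 := by
    have : IsOpenImmersion (g0 ≫ i.left) := by rw [hg0]; exact hl
    exact IsOpenImmersion.of_comp g0 i.left
  let g : aff k (Localization.Away w) ⟶ X := Over.homMk (g0 ≫ j.left) (by
    rw [Category.assoc, Over.w j, ← Over.w i, ← Category.assoc, hg0, Over.w l])
  have hg : IsOpenImmersion g.left := by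
    change IsOpenImmersion (g0 ≫ j.left)
    infer_instance
  let O : X.left.Opens := ⟨Set.range g.left, g.left.isOpenEmbedding.isOpen_range⟩
  have ht : IsTriple (cloMap X O) g := ⟨inferInstance, hg, range_cloMap _ _⟩
  have hXm : topologicalKrullDim X.left ≤ m := by
    rw [hdim]
    exact_mod_cast hdm
  have hPX := hX X hQX hXm
  refine hP.opened _ _ hft ht ?_ hPX
  by_cases hne : IsEmpty (clo X O).left
  · exact EU.p_of_empty hP _ (ft_clo hft) hne
  · rw [not_isEmpty_iff] at hne
    refine ih _ (ft_clo hft) ?_
    refine le_trans ?_ hXm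
    have : IrreducibleSpace X.left := hQ.irreducible X hQX
    refine EU.dim_closed_lt (X := X.left) (f := (cloMap X O).left)
      (cloMap X O).left.isClosedEmbedding fun h => ?_
    rw [range_cloMap] at h
    have hxl : x ∈ Set.range l.left := by
      rw [hlr]
      exact hxw
    obtain ⟨y, -⟩ := hxl
    have h1 : g.left y ∈ (O : Set X.left)ᶜ := by
      rw [h]
      trivial
    exact h1 ⟨y, rfl⟩

/-- **From the schemes of the class to all schemes.** -/
theorem devissage [PerfectField k] {Q : Sch k → Prop} (hQ : IsClass Q) {n : ℕ} (hM : ModelsIn Q n)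
    (hX : ForClass Q P n) (U : Sch k) (hU : FT True U)
    (hdim : topologicalKrullDim U.left ≤ n) : P U := by
  have step : ∀ m : ℕ, m ≤ n → (∀ Z : Sch k, FT True Z → topologicalKrullDim Z.left + 1 ≤ m → P Z) →
      ∀ U : Sch k, FT True U → topologicalKrullDim U.left ≤ m → P U := by
    intro m hm ih
    have hmn : (m : WithBot ℕ∞) ≤ n := by exact_mod_cast hm
    refine of_affine_dim hP fun A _ _ _ hA => ?_
    refine noeth hP (fun B _ _ hB => p_empty hP B hB) fun p hp => ?_
    have : Algebra.FiniteType k (A ⧸ p) :=
      Algebra.FiniteType.of_surjective (Ideal.Quotient.mkₐ k _) (Ideal.Quotient.mkₐ_surjective k _)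
    refine model_step hP hQ (m := m) (fun B _ _ _ _ d hd hB => hM B d (hd.trans hm) hB)
      (fun X hX1 hX2 => hX X hX1 (hX2.trans hmn)) ih (A ⧸ p) ?_
    exact (ringKrullDim_quotient_le p).trans hA
  have key : ∀ m : ℕ, m ≤ n → ∀ U : Sch k, FT True U → topologicalKrullDim U.left ≤ m → P U := by
    intro m
    induction m with
    | zero =>
      intro hm
      refine step 0 hm fun Z hZ hd => ?_
      by_cases he : IsEmpty Z.left
      · exact EU.p_of_empty hP Z hZ he
      · rw [not_isEmpty_iff] at he
        exfalso
        have hn : Nonempty (IrreducibleCloseds Z.left) :=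
          ⟨⟨closure {Classical.arbitrary Z.left}, isIrreducible_singleton.closure,
            isClosed_closure⟩⟩
        have h0 : (0 : WithBot ℕ∞) ≤ topologicalKrullDim Z.left := Order.krullDim_nonneg
        have h1 : (0 : WithBot ℕ∞) + 1 ≤ 0 := (add_le_add_left h0 1).trans (by exact_mod_cast hd)
        rw [zero_add] at h1
        exact absurd h1 (by decide)
    | succ m ih =>
      intro hm
      refine step (m + 1) hm fun Z hZ hd => ih (by omega) Z hZ ?_
      generalize topologicalKrullDim Z.left = x at hd
      induction x using WithBot.recBotCoe with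
      | bot => exact bot_le
      | coe e =>
        have h1 : e + 1 ≤ ((m + 1 : ℕ) : ℕ∞) := by exact_mod_cast hd
        have h2 : e ≤ (m : ℕ∞) := by
          rw [Nat.cast_add, Nat.cast_one] at h1
          exact (ENat.add_le_add_iff_right ENat.one_ne_top).mp h1
        exact_mod_cast h2
  exact key n le_rfl U hU hdim

/-- All forms with a small block, from the schemes of small dimension. -/
theorem forms_of_dim [PerfectField k] {n : ℕ}
    (h1 : ∀ U : Sch k, FT True U → topologicalKrullDim U.left ≤ n → P U) :
    ForForms P (n + 2) := by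
  intro F hF
  have h2 : ∀ I : Ideal (MvPolynomial (Fin (n + 1)) k),
      P (aff k (MvPolynomial (Fin (n + 1)) k ⧸ I)) :=
    dim_to_closed hP fun A _ _ _ hA => h1 _ (ft_aff True) (by rw [topDim_aff]; exact hA)
  exact of_block hP (fun a b c' hc' T => to_tri hP h2 a b c' hc' T) F.T hF

/-- All schemes of small dimension, from the forms with a small block. -/
theorem dim_of_forms [PerfectField k] {n : ℕ} (h : ForForms P (n + 2)) (U : Sch k) (hU : FT True U)
    (hdim : topologicalKrullDim U.left ≤ n) : P U :=
  (dim_tri hP n).mpr (fun a b T => h ⟨a, b, n + 2, T⟩ (Or.inr (Or.inr le_rfl))) U hU hdim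

/-- **The class in dimension at most `n` and trilinear forms.** -/
theorem class_iff [PerfectField k] {Q : Sch k → Prop} (hQ : IsClass Q) {n : ℕ} (hM : ModelsIn Q n) :
    ForClass Q P n ↔ ForForms P (n + 2) :=
  ⟨fun h => forms_of_dim hP (devissage hP hQ hM h), fun h X hX hd => dim_of_forms hP h X (hQ.ft hX) hd⟩

/-- All schemes and trilinear forms. -/
theorem all_iff [PerfectField k] {Q : Sch k → Prop} (hQ : IsClass Q) (hM : ∀ n, ModelsIn Q n) :
    (∀ X, Q X → P X) ↔ ∀ F : Form k, P F.hyp := by
  constructor
  · intro h F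
    exact (class_iff hP hQ (hM F.a)).mp (fun X hX _ => h X hX) F (Or.inl (by omega))
  · intro h X hX
    have h1 := hQ.ft hX
    exact universal hP.toUni (S := Set.univ) trivial trivial (fun a b c T _ => h ⟨a, b, c, T⟩)
      presents_univ X h1

end

end Pool.Agent.W5h93.EX
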