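import Pool.Agent.H91.L.W5h93_QD_Quad
import Pool.Agent.H89.L.Z125_UN_Sym

/-!
# Systems of quadratic equations and the dimension
-/

set_option autoImplicit false

open CategoryTheory AlgebraicGeometry MvPolynomial Pool.Agent.Y116.UV Pool.Agent.Z125.UN

namespace Pool.Agent.W5h93.QD

section

variable {k : Type} [Field k] {sep : Prop} {P : Sch k → Prop}

lemma deg_bil {β γ : Type} [Fintype β] [Fintype γ] (b : β → γ → k) :
    (bil β γ b).totalDegree ≤ 2 := by
  rw [bil_apply]
  refine (totalDegree_finsetSum _ _).trans (Finset.sup_le fun i _ => ?_)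
  refine (totalDegree_finsetSum _ _).trans (Finset.sup_le fun j _ => ?_)
  refine (totalDegree_mul _ _).trans ?_
  have h1 := totalDegree_mul (C (b i j)) (X (Sum.inl i) : MvPolynomial (β ⊕ γ) k)
  rw [totalDegree_C, totalDegree_X] at h1
  rw [totalDegree_X]
  omega

/-- from systems of `n + 2` bilinear equations to dimension `n` -/
theorem dim_of_quad (hP : Bnd sep P) [PerfectField k] {n : ℕ}
    (h : ∀ (N : ℕ) (q : Fin (n + 2) → MvPolynomial (Fin N) k), (∀ l, (q l).totalDegree ≤ 2) →
      P (aff k (Sys k (Fin N) (Set.range q)))) (X : Sch k) (hX : FT sep X)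
    (hn : topologicalKrullDim X.left ≤ n) : P X := by
  refine (dim_tri hP n).mpr (fun a b T => ?_) X hX hn
  let T' : Fin (n + 2) → Fin a → Fin b → k := fun l i j => T i j l
  have e1 := swapR T
  have e2 := swapL fun (i : Fin a) (l : Fin (n + 2)) (j : Fin b) => T i j l
  refine iso_alg hP.toUni (e1.trans (e2.trans (hypEquiv T'))).symm ?_
  have hA : P (aff k (MvPolynomial (Fin a ⊕ Fin b) k)) :=
    iso_alg hP.toUni (renameEquiv k finSumFinEquiv.symm) (hP.space _)
  refine to_jou hP _ hA ?_
  change P (aff k (Sys k (Fin a ⊕ Fin b) (Set.range fun l => bil (Fin a) (Fin b) (T' l))))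
  apply p_re hP (renameEquiv k finSumFinEquiv)
  rw [← Set.range_comp]
  exact h (a + b) _ fun l => (totalDegree_rename_le _ _).trans (deg_bil _)

/-- from dimension `n` to systems of quadratic equations -/
theorem quad_of_dim (hP : Bnd sep P) (hD : DoubleCovers P) (h2 : (2 : k) ≠ 0) {n : ℕ}
    (h : ∀ (X : Sch k), FT sep X → topologicalKrullDim X.left ≤ n → P X)
    {A : Type} [CommRing A] [Algebra k A] [Algebra.FiniteType k A] {s r : ℕ} (hA : ringKrullDim A ≤ s)
    (hn : s + r ≤ n) {V κ : Type} [Fintype V] [Finite κ] (b : κ → MvPolynomial V A)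
    (q : Fin (r + 1) → MvPolynomial V A) (hb : ∀ j, (b j).totalDegree ≤ 1)
    (hq : ∀ l, (q l).totalDegree ≤ 2) :
    P (aff k (Sys A V (Set.range b ∪ Set.range q))) := by
  have ht : (2⁻¹ : k) + 2⁻¹ = 1 := by
    rw [← two_mul, mul_inv_cancel₀ h2]
  refine quadrics hP hD ht (fun B _ _ _ hB => h _ (ft_aff sep) ?_) hA hn b q hb hq
  rw [topDim_aff]
  exact hB

end

end Pool.Agent.W5h93.QD
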