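import Pool.Agent.H91.L.W5h93_EX_Main
import Pool.Agent.H89.L.Y116_UV_Graph

/-!
# Over the rational numbers: the hypersurfaces of tripartite hypergraphs
-/

set_option autoImplicit false

open CategoryTheory AlgebraicGeometry Pool.Agent.Y116.UV Pool.Agent.Z125.UN Pool.Agent.W5h93.EV
  MvPolynomial

namespace Pool.Agent.W5h93.EX

section

variable {R : Type} [CommRing R]

/-- From presentations with integral coefficients to presentations by sums of monomials. -/
theorem presents_of_int
    (hI : Presents (Set.range (Int.cast : ℤ → R))) : Presents ({0, 1} : Set R) := by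
  classical
  apply presents_of
  intro A _ _ _
  obtain ⟨n, φ, G, hs, hK, hG⟩ := hI A
  let w : R → ℤ := fun r => if h : ∃ z : ℤ, (z : R) = r then h.choose else 0
  have hw : ∀ g ∈ G, ∀ m, ((w (coeff m g) : ℤ) : R) = coeff m g := by
    intro g hg m
    obtain ⟨z, hz⟩ := hG g hg m
    have h : ∃ z : ℤ, (z : R) = coeff m g := ⟨z, hz⟩
    change ((dite _ _ _ : ℤ) : R) = _
    rw [dif_pos h]
    exact h.choose_spec
  let K : ℕ := ∑ g ∈ G, ∑ m ∈ g.support, (w (coeff m g)).natAbs
  let z : (Fin n →₀ ℕ) → MvPolynomial (Fin n) R → Cs K := fun m g =>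
    if h : w (coeff m g) ∈ Finset.Icc (-(K : ℤ)) K then ⟨_, h⟩ else zr K
  have hz : ∀ g ∈ G, ∀ m ∈ g.support, (((z m g).1 : ℤ) : R) = coeff m g := by
    intro g hg m hm
    have h1 : (w (coeff m g)).natAbs ≤ ∑ m ∈ g.support, (w (coeff m g)).natAbs :=
      Finset.single_le_sum (f := fun m : Fin n →₀ ℕ => (w (coeff m g)).natAbs)
        (fun _ _ => Nat.zero_le _) hm
    have h2 : ∑ m ∈ g.support, (w (coeff m g)).natAbs ≤ K :=
      Finset.single_le_sum (f := fun g : MvPolynomial (Fin n) R =>
        ∑ m ∈ g.support, (w (coeff m g)).natAbs) (fun _ _ => Nat.zero_le _) hg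
    have h3 : w (coeff m g) ∈ Finset.Icc (-(K : ℤ)) K := by
      rw [Finset.mem_Icc]
      omega
    have h4 : z m g = ⟨_, h3⟩ := dif_pos h3
    rw [h4]
    exact hw g hg m
  refine ⟨Vs n K, inferInstance, φ.comp (sb R n K), Finset.univ.image (rel K G z), ?_, ?_, ?_⟩
  · intro a
    obtain ⟨p, rfl⟩ := hs a
    refine ⟨rename Sum.inl p, ?_⟩
    change φ (sb R n K (rename Sum.inl p)) = φ p
    congr 1
    rw [sb, aeval_rename]
    exact aeval_X_left_apply _
  · rw [ker_sb K G z hz φ hK, rI]
    congr 1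
    simp
  · intro g hg m
    obtain ⟨k, -, rfl⟩ := Finset.mem_image.mp hg
    exact coeff_ms_mem _ _

end

/-- Clearing denominators. -/
lemma exists_int_mul (G : Finset ℚ) : ∃ N : ℕ, N ≠ 0 ∧ ∀ q ∈ G, ∃ z : ℤ, (z : ℚ) = N * q := by
  classical
  refine ⟨∏ q ∈ G, q.den, Finset.prod_ne_zero_iff.mpr fun q _ => q.den_nz, fun q hq => ?_⟩
  obtain ⟨r, hr⟩ : q.den ∣ ∏ q ∈ G, q.den := Finset.dvd_prod_of_mem _ hq
  refine ⟨r * q.num, ?_⟩
  have h1 : (q.den : ℚ) * q = q.num := by
    rw [mul_comm]
    exact Rat.mul_den_eq_num q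
  rw [hr]
  push_cast
  rw [← h1]
  ring

/-- Over `ℚ` every algebra of finite type has a presentation with integral coefficients. -/
theorem presents_rat_int : Presents (Set.range (Int.cast : ℤ → ℚ)) := by
  classical
  intro A _ _ _
  obtain ⟨n, φ, G, hs, hK, -⟩ := presents_univ (R := ℚ) A
  have hN : ∀ g : MvPolynomial (Fin n) ℚ, ∃ N : ℕ, N ≠ 0 ∧ ∀ m, ∃ z : ℤ, (z : ℚ) = N * coeff m g := by
    intro g
    obtain ⟨N, hN, h⟩ := exists_int_mul (g.support.image fun m => coeff m g)
    refine ⟨N, hN, fun m => ?_⟩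
    by_cases hm : m ∈ g.support
    · exact h _ (Finset.mem_image_of_mem _ hm)
    · refine ⟨0, ?_⟩
      rw [notMem_support_iff.mp hm, mul_zero, Int.cast_zero]
  choose N hN0 hN using hN
  refine ⟨n, φ, G.image fun g => C (N g : ℚ) * g, hs, ?_, ?_⟩
  · rw [hK]
    apply le_antisymm
    · rw [Ideal.span_le]
      intro g hg
      have h1 : (g : MvPolynomial (Fin n) ℚ) = C ((N g : ℚ)⁻¹) * (C (N g : ℚ) * g) := by
        rw [← mul_assoc, ← map_mul, inv_mul_cancel₀ (Nat.cast_ne_zero.mpr (hN0 g)), map_one,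
          one_mul]
      rw [h1]
      refine Ideal.mul_mem_left _ _ (Ideal.subset_span ?_)
      rw [Finset.coe_image]
      exact ⟨g, hg, rfl⟩
    · rw [Ideal.span_le]
      intro g hg
      rw [Finset.coe_image] at hg
      obtain ⟨g, hg, rfl⟩ := hg
      exact Ideal.mul_mem_left _ _ (Ideal.subset_span hg)
  · intro g hg m
    obtain ⟨g, -, rfl⟩ := Finset.mem_image.mp hg
    obtain ⟨z, hz⟩ := hN g m
    refine ⟨z, ?_⟩
    rw [coeff_C_mul, hz]

/-- Over `ℚ` every algebra of finite type has a presentation by sums of monomials. -/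
theorem presents_rat : Presents ({0, 1} : Set ℚ) := presents_of_int presents_rat_int

/-- Over a ring over which algebras of finite type have presentations by sums of monomials: the
hypersurfaces of the tripartite hypergraphs. -/
theorem universal_graph {R : Type} [CommRing R] (hR : Presents ({0, 1} : Set R))
    {sep : Prop} {P : Sch R → Prop} (hP : Uni sep P)
    (hH : ∀ (a b c : ℕ) (H : Finset (Fin a × Fin b × Fin c)), P (tripS R H))
    (X : Sch R) (hX : FT sep X) : P X := by
  classical
  refine universal hP (S := {0, 1}) (Or.inl rfl) (Or.inr rfl) ?_ hR X hX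
  intro a b c T hT
  let H : Finset (Fin a × Fin b × Fin c) := Finset.univ.filter fun h => T h.1 h.2.1 h.2.2 = 1
  have h1 : T = fun i j k => if (i, j, k) ∈ H then (1 : R) else 0 := by
    funext i j k
    have hm : (i, j, k) ∈ H ↔ T i j k = 1 := by
      rw [Finset.mem_filter]
      exact ⟨fun h => h.2, fun h => ⟨Finset.mem_univ _, h⟩⟩
    by_cases h : T i j k = 1
    · rw [if_pos (hm.mpr h), h]
    · rw [if_neg fun h2 => h (hm.mp h2)]
      rcases hT i j k with h2 | h2
      · exact h2
      · exact absurd h2 h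
  have h2 := hH a b c H
  unfold tripS Trip at h2
  rw [← tri_ind, ← h1] at h2
  exact h2

/-- The hypersurfaces of the hypergraphs, from all schemes. -/
theorem graph_of_all {R : Type} [CommRing R] {P : Sch R → Prop} (h : ∀ X : Sch R, FT True X → P X)
    {a b c : ℕ} (H : Finset (Fin a × Fin b × Fin c)) : P (tripS R H) :=
  h _ (ft_aff True)

/-- **Over `ℚ`: the class and the hypersurfaces of the tripartite hypergraphs.** -/
theorem graph_iff {P : Sch ℚ → Prop} (hP : Bnd True P) {Q : Sch ℚ → Prop} (hQ : IsClass Q)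
    (hM : ∀ n, ModelsIn Q n) :
    (∀ X, Q X → P X) ↔ ∀ (a b c : ℕ) (H : Finset (Fin a × Fin b × Fin c)), P (tripS ℚ H) := by
  constructor
  · intro h a b c H
    refine (universal hP.toUni (S := Set.univ) trivial trivial (fun a b c T _ => ?_) presents_univ) _
      (ft_aff True)
    exact (all_iff hP hQ hM).mp h ⟨a, b, c, T⟩
  · intro h X hX
    exact universal_graph presents_rat hP.toUni h X (hQ.ft hX)

end Pool.Agent.W5h93.EX
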