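import Pool.Agent.H91.L.W5h93_WC_Null
import Pool.Agent.H91.L.W5h93_EX_Prime
import Pool.Agent.H91.L.W5h93_EX_Bnd

/-!
# Weight complexes and cubic hypersurfaces
-/

set_option autoImplicit false
set_option linter.unusedSectionVars false

open CategoryTheory Limits Pretriangulated MonoidalCategory AlgebraicGeometry Pool.Agent.Y116.UV
  Pool.Agent.Z125.UN Pool.Agent.W5h93.EV Pool.Agent.W5h93.EX

universe v u

namespace Pool.Agent.W5h93.WC

variable {k : Type} [Field k] {𝒜 : Type u} [Category.{v} 𝒜] [Preadditive 𝒜] [HasZeroObject 𝒜]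
  [HasBinaryBiproducts 𝒜] [MonoidalCategory 𝒜] [MonoidalPreadditive 𝒜] {V : Cls 𝒜}
  {T : ℤ → 𝒜} {W : Sch k → HomotopyCategory 𝒜 (ComplexShape.up ℤ)}

lemma compl_one (A : Type) [CommRing A] [Algebra k A] (n : ℕ) : Compl (f1 A n) (aff k A) := by
  have h1 : IsOpenImmersion (𝟙 (aff k A) : aff k A ⟶ aff k A).left :=
    inferInstanceAs (IsOpenImmersion (𝟙 (aff k A).left))
  have h2 : Set.range (𝟙 (aff k A) : aff k A ⟶ aff k A).left =
      {x : PrimeSpectrum A | ∃ l, f1 A n l ∉ x.asIdeal} := by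
    have h1 : Set.range (𝟙 (aff k A) : aff k A ⟶ aff k A).left = Set.univ := Set.range_id
    have h2 : {x : PrimeSpectrum A | ∃ l, f1 A n l ∉ x.asIdeal} = Set.univ := by
      rw [Set.eq_univ_iff_forall]
      intro x
      exact ⟨0, fun hx => x.isPrime.ne_top ((Ideal.eq_top_iff_one _).mpr hx)⟩
    exact h1.trans h2.symm
  exact ⟨𝟙 _, h1, h2⟩

/-- The schemes with null weight complexes have the closure properties. -/
theorem bnd_wc (hT : ∀ (j : ℤ) (A : 𝒜), V.prop A → V.prop (A ⊗ T j)) (h0 : V.prop (T 0))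
    (hW : IsWeightComplex T W) : Bnd True fun X : Sch k => Null V.prop (W X).as where
  iso hX e h := by
    obtain ⟨e'⟩ := hW.iso hX e
    exact h.of_iso e'
  total i j hX ht hZ hU := by
    obtain ⟨f, g, h, h'⟩ := hW.localization i j hX ⟨ht.closed, ht.opened, ht.compl⟩
    exact (null_two _ h').2.1 hZ hU
  opened i j hX ht hZ hX' := by
    obtain ⟨f, g, h, h'⟩ := hW.localization i j hX ⟨ht.closed, ht.opened, ht.compl⟩
    exact (null_two _ h').1 hZ hX'
  closed i j hX ht hX' hU := by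
    obtain ⟨f, g, h, h'⟩ := hW.localization i j hX ⟨ht.closed, ht.opened, ht.compl⟩
    exact (null_two _ h').2.2 hX' hU
  space n := by
    have h1 : Null V.prop (W (aff k k)).as := by
      obtain ⟨e⟩ := hW.point
      exact (null_cpx.mpr h0).of_iso e.symm
    obtain ⟨⟨e⟩, -⟩ := hW.bundle k (n + 1) (f1 k n) (aff k k) (compl_one k n)
    have h2 : Null V.prop (W (aff k (Jou (f1 k n)))).as := (h1.map _ (hT _)).of_iso e.symm
    have : Algebra.FiniteType k (Jou (f1 k n)) :=
      Algebra.FiniteType.trans (S := k) inferInstance inferInstance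
    obtain ⟨e'⟩ := hW.iso (X := aff k (Jou (f1 k n))) (Y := aff k (MvPolynomial (Fin n) k))
      (ft_aff True) ⟨(affIso ((jouOne k n).restrictScalars k)).symm⟩
    exact h2.of_iso e'
  jouanolou A _ _ _ m f U j hj hr h := by
    obtain ⟨-, ⟨e⟩⟩ := hW.bundle A m f U ⟨j, hj, hr⟩
    exact (h.map _ (hT _)).of_iso e.symm
  torus A _ _ _ h := by
    obtain ⟨n, s, r, hs⟩ := hW.torus A
    exact Null.of_retract s r hs (h.shift n)
  bundle A _ _ _ m f U j hj hr h := by
    obtain ⟨⟨e⟩, -⟩ := hW.bundle A m f U ⟨j, hj, hr⟩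
    exact (h.map _ (hT _)).of_iso e.symm

/-- The reduction, for any class of objects closed under sums, retracts and Tate twists. -/
theorem reduces_wc [PerfectField k] (hT : ∀ (j : ℤ) (A : 𝒜), V.prop A → V.prop (A ⊗ T j))
    (h0 : V.prop (T 0)) (hW : IsWeightComplex T W) {Q : Sch k → Prop} (hQ : IsClass Q)
    (h : Sch k → 𝒜) (hh : ∀ X, Q X → Nonempty (W X ≅ cpx (h X))) :
    Reduces Q (fun X => V.prop (h X)) (fun X => Null V.prop (W X).as) :=
  reduces (bnd_wc hT h0 hW) hQ fun X hX => by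
    obtain ⟨e⟩ := hh X hX
    rw [← null_cpx]
    exact ⟨fun h1 => h1.of_iso e.symm, fun h1 => h1.of_iso e⟩

end Pool.Agent.W5h93.WC
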