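import Pool.Agent.H91.L.W5h93_WC_Main

/-!
# The hypersurface `x y z = 1` is a torus
-/

set_option autoImplicit false
set_option linter.unusedSectionVars false

open CategoryTheory Limits Pretriangulated MonoidalCategory AlgebraicGeometry Pool.Agent.Y116.UV
  Pool.Agent.Z125.UN Pool.Agent.W5h93.EV Pool.Agent.W5h93.EX

universe v u

namespace Pool.Agent.W5h93.WC

section

variable (k : Type) [Field k]

open MvPolynomial

/-- the ring `k[x, y, z] / (x y z - 1)` -/
abbrev Oxyz : Type := MvPolynomial (Fin 1 ⊕ (Fin 1 ⊕ Fin 1)) k ⧸ Ideal.span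
  {X (Sum.inl 0) * X (Sum.inr (Sum.inl 0)) * X (Sum.inr (Sum.inr 0)) -
    (1 : MvPolynomial (Fin 1 ⊕ (Fin 1 ⊕ Fin 1)) k)}

/-- the coordinates -/
noncomputable def co (s : Fin 1 ⊕ (Fin 1 ⊕ Fin 1)) : Oxyz k := Ideal.Quotient.mk _ (X s)

lemma co_mul : co k (Sum.inl 0) * co k (Sum.inr (Sum.inl 0)) * co k (Sum.inr (Sum.inr 0)) = 1 := by
  rw [co, co, co, ← map_mul, ← map_mul, ← map_one (Ideal.Quotient.mk _), Ideal.Quotient.eq]
  exact Ideal.subset_span rfl

/-- the unit `x` -/
noncomputable def ux : (Oxyz k)ˣ where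
  val := co k (Sum.inl 0)
  inv := co k (Sum.inr (Sum.inl 0)) * co k (Sum.inr (Sum.inr 0))
  val_inv := by rw [← mul_assoc, co_mul]
  inv_val := by rw [← co_mul k]; ring

/-- the unit `y` -/
noncomputable def uy : (Oxyz k)ˣ where
  val := co k (Sum.inr (Sum.inl 0))
  inv := co k (Sum.inl 0) * co k (Sum.inr (Sum.inr 0))
  val_inv := by rw [← co_mul k]; ring
  inv_val := by rw [← co_mul k]; ring

/-- the ring of functions of the torus -/
abbrev LL : Type := LaurentPolynomial (LaurentPolynomial k)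

/-- the images of the coordinates -/
noncomputable def im : Fin 1 ⊕ (Fin 1 ⊕ Fin 1) → LL k
  | Sum.inl _ => LaurentPolynomial.C (LaurentPolynomial.T 1)
  | Sum.inr (Sum.inl _) => LaurentPolynomial.T 1
  | Sum.inr (Sum.inr _) => LaurentPolynomial.C (LaurentPolynomial.T (-1)) * LaurentPolynomial.T (-1)

/-- the homomorphism -/
noncomputable def toLL : Oxyz k →ₐ[k] LL k :=
  Ideal.Quotient.liftₐ _ (aeval (im k)) (by
    intro a ha
    have h1 : Ideal.span {X (Sum.inl 0) * X (Sum.inr (Sum.inl 0)) * X (Sum.inr (Sum.inr 0)) -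
        (1 : MvPolynomial (Fin 1 ⊕ (Fin 1 ⊕ Fin 1)) k)} ≤ RingHom.ker (aeval (im k)) := by
      rw [Ideal.span_le, Set.singleton_subset_iff, SetLike.mem_coe, RingHom.mem_ker]
      simp only [map_sub, map_mul, aeval_X, map_one, im]
      rw [show LaurentPolynomial.C (LaurentPolynomial.T 1 : LaurentPolynomial k) *
        LaurentPolynomial.T 1 * (LaurentPolynomial.C (LaurentPolynomial.T (-1)) *
        LaurentPolynomial.T (-1)) = LaurentPolynomial.C (LaurentPolynomial.T 1 *
        LaurentPolynomial.T (-1)) * (LaurentPolynomial.T 1 * LaurentPolynomial.T (-1)) by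
          rw [map_mul]; ring, ← LaurentPolynomial.T_add, ← LaurentPolynomial.T_add]
      simp
    exact h1 ha)

lemma toLL_co (s : Fin 1 ⊕ (Fin 1 ⊕ Fin 1)) : toLL k (co k s) = im k s := by
  rw [toLL, co, Ideal.Quotient.liftₐ_apply, Ideal.Quotient.lift_mk]
  exact aeval_X _ _

/-- the inverse -/
noncomputable def ofLL : LL k →+* Oxyz k :=
  LaurentPolynomial.eval₂ (LaurentPolynomial.eval₂ (algebraMap k (Oxyz k)) (ux k)) (uy k)

lemma ofLL_toLL (a : Oxyz k) : ofLL k (toLL k a) = a := by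
  obtain ⟨p, rfl⟩ := Ideal.Quotient.mk_surjective a
  have h1 : (ofLL k).comp ((toLL k).toRingHom.comp (Ideal.Quotient.mk _)) =
      Ideal.Quotient.mk _ := by
    apply MvPolynomial.ringHom_ext
    · intro r
      have h2 : toLL k (Ideal.Quotient.mk _ (C r)) = LaurentPolynomial.C (LaurentPolynomial.C r) :=
        (toLL k).commutes r
      change ofLL k (toLL k (Ideal.Quotient.mk _ (C r))) = _
      rw [h2, ofLL, LaurentPolynomial.eval₂_C, LaurentPolynomial.eval₂_C]
      rfl
    · intro s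
      change ofLL k (toLL k (co k s)) = co k s
      rw [toLL_co]
      rcases s with s | s | s
      · have : s = 0 := Subsingleton.elim _ _
        subst this
        rw [im, ofLL, LaurentPolynomial.eval₂_C, LaurentPolynomial.eval₂_T, zpow_one]
        rfl
      · have : s = 0 := Subsingleton.elim _ _
        subst this
        rw [im, ofLL, LaurentPolynomial.eval₂_T, zpow_one]
        rfl
      · have : s = 0 := Subsingleton.elim _ _
        subst this
        rw [im, ofLL, LaurentPolynomial.eval₂_C_mul_T, LaurentPolynomial.eval₂_T, zpow_neg_one,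
          zpow_neg_one]
        change (co k (Sum.inr (Sum.inl 0)) * co k (Sum.inr (Sum.inr 0))) *
          (co k (Sum.inl 0) * co k (Sum.inr (Sum.inr 0))) = _
        calc (co k (Sum.inr (Sum.inl 0)) * co k (Sum.inr (Sum.inr 0))) *
          (co k (Sum.inl 0) * co k (Sum.inr (Sum.inr 0))) =
            (co k (Sum.inl 0) * co k (Sum.inr (Sum.inl 0)) * co k (Sum.inr (Sum.inr 0))) *
              co k (Sum.inr (Sum.inr 0)) := by ring
          _ = _ := by rw [co_mul, one_mul]
  exact congrArg (fun f => f p) h1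

/-- the unit `T` -/
noncomputable def vy : (LL k)ˣ where
  val := LaurentPolynomial.T 1
  inv := LaurentPolynomial.T (-1)
  val_inv := by rw [← LaurentPolynomial.T_add]; simp
  inv_val := by rw [← LaurentPolynomial.T_add]; simp

/-- the unit `C T` -/
noncomputable def vx : (LL k)ˣ where
  val := LaurentPolynomial.C (LaurentPolynomial.T 1)
  inv := LaurentPolynomial.C (LaurentPolynomial.T (-1))
  val_inv := by rw [← map_mul, ← LaurentPolynomial.T_add]; simp
  inv_val := by rw [← map_mul, ← LaurentPolynomial.T_add]; simp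

lemma vy_zpow (n : ℤ) : ((vy k ^ n : (LL k)ˣ) : LL k) = LaurentPolynomial.T n := by
  rcases Int.eq_nat_or_neg n with ⟨m, rfl | rfl⟩
  · rw [zpow_natCast, Units.val_pow_eq_pow_val]
    change (LaurentPolynomial.T 1) ^ m = _
    rw [LaurentPolynomial.T_pow, mul_one]
  · rw [zpow_neg, zpow_natCast, ← inv_pow, Units.val_pow_eq_pow_val]
    change (LaurentPolynomial.T (-1)) ^ m = _
    rw [LaurentPolynomial.T_pow]
    congr 1
    ring

lemma vx_zpow (n : ℤ) : ((vx k ^ n : (LL k)ˣ) : LL k) =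
    LaurentPolynomial.C (LaurentPolynomial.T n) := by
  rcases Int.eq_nat_or_neg n with ⟨m, rfl | rfl⟩
  · rw [zpow_natCast, Units.val_pow_eq_pow_val]
    change (LaurentPolynomial.C (LaurentPolynomial.T 1)) ^ m = _
    rw [← map_pow, LaurentPolynomial.T_pow, mul_one]
  · rw [zpow_neg, zpow_natCast, ← inv_pow, Units.val_pow_eq_pow_val]
    change (LaurentPolynomial.C (LaurentPolynomial.T (-1))) ^ m = _
    rw [← map_pow, LaurentPolynomial.T_pow]
    congr 2
    ring

lemma toLL_zpow (u : (Oxyz k)ˣ) (n : ℤ) (v : (LL k)ˣ) (h : toLL k u = v) :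
    toLL k ((u ^ n : (Oxyz k)ˣ) : Oxyz k) = ((v ^ n : (LL k)ˣ) : LL k) := by
  have h1 : Units.map (toLL k : Oxyz k →* LL k) u = v := Units.ext h
  have h2 := congrArg (fun w => w ^ n) h1
  beta_reduce at h2
  rw [← map_zpow] at h2
  exact congrArg Units.val h2

lemma toLL_ux (n : ℤ) : toLL k ((ux k ^ n : (Oxyz k)ˣ) : Oxyz k) =
    LaurentPolynomial.C (LaurentPolynomial.T n) := by
  rw [toLL_zpow k (ux k) n (vx k) (toLL_co k (Sum.inl 0)), vx_zpow]

lemma toLL_uy (n : ℤ) : toLL k ((uy k ^ n : (Oxyz k)ˣ) : Oxyz k) = LaurentPolynomial.T n := by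
  rw [toLL_zpow k (uy k) n (vy k) (toLL_co k (Sum.inr (Sum.inl 0))), vy_zpow]

lemma toLL_ofLL (a : LL k) : toLL k (ofLL k a) = a := by
  induction a using LaurentPolynomial.induction_on' with
  | add p q hp hq => rw [map_add, map_add, hp, hq]
  | C_mul_T n a =>
    have h1 : toLL k (ofLL k (LaurentPolynomial.C a)) = LaurentPolynomial.C a := by
      induction a using LaurentPolynomial.induction_on' with
      | add p q hp hq => rw [map_add, map_add, map_add, hp, hq]
      | C_mul_T m a =>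
        rw [ofLL, LaurentPolynomial.eval₂_C, LaurentPolynomial.eval₂_C_mul_T, map_mul,
          AlgHom.commutes, toLL_ux, map_mul]
        rfl
    rw [map_mul, map_mul, h1]
    congr 1
    rw [ofLL, LaurentPolynomial.eval₂_T, toLL_uy]

/-- the isomorphism -/
noncomputable def eqvLL : Oxyz k ≃ₐ[k] LL k :=
  AlgEquiv.ofBijective (toLL k) ⟨fun a b h => by
    rw [← ofLL_toLL k a, ← ofLL_toLL k b, h], fun a => ⟨ofLL k a, toLL_ofLL k a⟩⟩

/-- the form `x y z` -/
noncomputable def xyz : Form k := ⟨1, 1, 1, fun _ _ _ => 1⟩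

lemma tri_one : tri (fun (_ _ _ : Fin 1) => (1 : k)) =
    X (Sum.inl 0) * X (Sum.inr (Sum.inl 0)) * X (Sum.inr (Sum.inr 0)) := by
  rw [tri, Fin.sum_univ_one, Fin.sum_univ_one, Fin.sum_univ_one, map_one, one_mul]

lemma xyz_iso : Nonempty ((xyz k).hyp ≅ aff k (LL k)) := by
  have h1 : Ideal.span {tri (fun (_ _ _ : Fin 1) => (1 : k)) - 1} = Ideal.span
      {X (Sum.inl 0) * X (Sum.inr (Sum.inl 0)) * X (Sum.inr (Sum.inr 0)) -
        (1 : MvPolynomial (Fin 1 ⊕ (Fin 1 ⊕ Fin 1)) k)} := by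
    rw [tri_one]
  have h2 : (Hyp (fun (_ _ _ : Fin 1) => (1 : k))) ≃ₐ[k] LL k :=
    (Ideal.quotientEquivAlgOfEq k h1).trans (eqvLL k)
  have h3 : Nonempty (aff k (Hyp (fun (_ _ _ : Fin 1) => (1 : k))) ≅ aff k (LL k)) :=
    ⟨(affIso h2).symm⟩
  exact h3

lemma trip_iso : Nonempty (tripS k ({(0, 0, 0)} : Finset (Fin 1 × Fin 1 × Fin 1)) ≅
    aff k (LL k)) := by
  have h1 : Ideal.span {∑ h ∈ ({(0, 0, 0)} : Finset (Fin 1 × Fin 1 × Fin 1)),
      X (Sum.inl h.1) * X (Sum.inr (Sum.inl h.2.1)) * X (Sum.inr (Sum.inr h.2.2)) -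
        (1 : MvPolynomial (Fin 1 ⊕ (Fin 1 ⊕ Fin 1)) k)} = Ideal.span
      {X (Sum.inl 0) * X (Sum.inr (Sum.inl 0)) * X (Sum.inr (Sum.inr 0)) -
        (1 : MvPolynomial (Fin 1 ⊕ (Fin 1 ⊕ Fin 1)) k)} := by
    rw [Finset.sum_singleton]
  have h2 : Trip k ({(0, 0, 0)} : Finset (Fin 1 × Fin 1 × Fin 1)) ≃ₐ[k] LL k :=
    (Ideal.quotientEquivAlgOfEq k h1).trans (eqvLL k)
  have h3 : Nonempty (aff k (Trip k ({(0, 0, 0)} : Finset (Fin 1 × Fin 1 × Fin 1))) ≅
    aff k (LL k)) := ⟨(affIso h2).symm⟩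
  exact h3

end

section

variable {k : Type} [Field k] {𝒜 : Type u} [Category.{v} 𝒜] [Preadditive 𝒜] [HasZeroObject 𝒜]
  [HasBinaryBiproducts 𝒜] [MonoidalCategory 𝒜] [MonoidalPreadditive 𝒜] {V : Cls 𝒜}
  {T : ℤ → 𝒜} {W : Sch k → HomotopyCategory 𝒜 (ComplexShape.up ℤ)}

/-- If the weight complex of the torus of dimension two is null, then the unit object is in the
class. -/
theorem unit_of_torus (hW : IsWeightComplex T W) (h : Null V.prop (W (aff k (LL k))).as) :
    V.prop (T 0) := by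
  have h1 : Null V.prop (W (aff k (LaurentPolynomial k))).as := by
    obtain ⟨n, s, r, hs⟩ := hW.torus (LaurentPolynomial k)
    exact Null.of_retract s r hs (h.shift n)
  have h2 : Null V.prop (W (aff k k)).as := by
    obtain ⟨n, s, r, hs⟩ := hW.torus k
    exact Null.of_retract s r hs (h1.shift n)
  obtain ⟨e⟩ := hW.point
  exact null_cpx.mp (h2.of_iso e)

end

end Pool.Agent.W5h93.WC
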