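import Pool.Agent.H91.L.W5h93_EX_OrdDefs
import Pool.Agent.H91.L.W5h93_EX_Main

/-!
# Ordinary places
-/

set_option autoImplicit false

open CategoryTheory AlgebraicGeometry Pool.Agent.Y116.UV Pool.Agent.W5h93.EV Filter

namespace Pool.Agent.W5h93.EX

section polygon

/-- Summation by parts. -/
lemma abel_nonneg {n : ℕ} {a b : ℕ → ℚ} (ha : Monotone a)
    (h : ∀ m ≤ n, ∑ i ∈ Finset.range m, b i ≤ ∑ i ∈ Finset.range m, a i) :
    ∀ m, m + 1 ≤ n → a m * (∑ i ∈ Finset.range (m + 1), (b i - a i)) ≤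
      ∑ i ∈ Finset.range (m + 1), a i * (b i - a i) := by
  intro m
  induction m with
  | zero => intro _; simp
  | succ m ih =>
    intro hm
    have h1 := ih (by omega)
    rw [Finset.sum_range_succ _ (m + 1), Finset.sum_range_succ _ (m + 1)]
    have h2 : ∑ i ∈ Finset.range (m + 1), (b i - a i) ≤ 0 := by
      rw [Finset.sum_sub_distrib]
      have := h (m + 1) (by omega)
      linarith
    have h3 : a m ≤ a (m + 1) := ha (Nat.le_succ m)
    nlinarith

/-- If a polygon lies above another one, its slopes have the smaller sum of squares, and equality holds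
only for equal polygons. -/
theorem IsAbove.squares_le {s w : Multiset ℚ} (h : IsAbove s w) :
    squares s ≤ squares w ∧ (squares s = squares w → s = w) := by
  obtain ⟨n, a, b, ha, hb, rfl, rfl, hp, he⟩ := h
  have h1 : ∀ f : ℕ → ℚ, squares ((Multiset.range n).map f) = ∑ i ∈ Finset.range n, f i ^ 2 := by
    intro f
    rw [squares, Multiset.map_map]
    rfl
  rw [h1, h1]
  have h2 : 0 ≤ ∑ i ∈ Finset.range n, a i * (b i - a i) := by
    rcases n with _ | n
    · simp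
    · have h3 := abel_nonneg ha hp n le_rfl
      have h4 : ∑ i ∈ Finset.range (n + 1), (b i - a i) = 0 := by
        rw [Finset.sum_sub_distrib, he, sub_self]
      rw [h4, mul_zero] at h3
      exact h3
  have h3 : ∑ i ∈ Finset.range n, b i ^ 2 = ∑ i ∈ Finset.range n, a i ^ 2 +
      (∑ i ∈ Finset.range n, (b i - a i) ^ 2 + 2 * ∑ i ∈ Finset.range n, a i * (b i - a i)) := by
    rw [Finset.mul_sum, ← Finset.sum_add_distrib, ← Finset.sum_add_distrib]
    exact Finset.sum_congr rfl fun i _ => by ring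
  have h4 : 0 ≤ ∑ i ∈ Finset.range n, (b i - a i) ^ 2 := Finset.sum_nonneg fun i _ => sq_nonneg _
  refine ⟨by linarith, fun h5 => ?_⟩
  have h6 : ∑ i ∈ Finset.range n, (b i - a i) ^ 2 = 0 := by linarith
  have h7 := (Finset.sum_eq_zero_iff_of_nonneg fun i _ => sq_nonneg (b i - a i)).mp h6
  refine Multiset.map_congr rfl fun i hi => ?_
  have h8 := h7 i (by rwa [Finset.mem_range, ← Multiset.mem_range])
  have h9 : b i - a i = 0 := by exact pow_eq_zero_iff (two_ne_zero) |>.mp h8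
  linarith

end polygon

variable {k : Type} [Field k] {ι : Type} {D : SlopeData k ι} {Q : Sch k → Prop}
  {δ : Sch k → ℤ → ι → ℚ}

/-- The invariant along an ultrafilter. -/
lemma additive_of_le (h : IsAdditive fun X c => (δ X c : Germ (cofinite : Filter ι) ℚ))
    {l : Filter ι} (hl : l ≤ cofinite) : IsAdditive fun X c => (δ X c : Germ l ℚ) where
  iso hX e := by
    funext c
    have h1 := congrFun (h.iso hX e) c
    exact Germ.coe_eq.mpr ((Germ.coe_eq.mp h1).filter_mono hl)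
  add i j hX hd c := by
    have h1 := h.add i j hX hd c
    rw [← Germ.coe_add] at h1 ⊢
    exact Germ.coe_eq.mpr ((Germ.coe_eq.mp h1).filter_mono hl)
  bundle A _ _ _ m f U hU c := by
    have h1 := h.bundle A m f U hU c
    exact Germ.coe_eq.mpr ((Germ.coe_eq.mp h1).filter_mono hl)
  bounded X hX := by
    obtain ⟨b, hb⟩ := h.bounded X hX
    refine ⟨b, fun c hc => ?_⟩
    have h1 := hb c hc
    rw [← Germ.coe_zero] at h1 ⊢
    exact Germ.coe_eq.mpr ((Germ.coe_eq.mp h1).filter_mono hl)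
  point c := by
    have h1 := h.point c
    rw [← Germ.coe_zero] at h1 ⊢
    exact Germ.coe_eq.mpr ((Germ.coe_eq.mp h1).filter_mono hl)

lemma germ_zero {l : Filter ι} {f : ι → ℚ} :
    ((f : Germ l ℚ) = 0) ↔ ∀ᶠ v in l, f v = 0 := by
  rw [← Germ.coe_zero, Germ.coe_eq]
  rfl

/-- For a variety of the class, the vanishing along an ultrafilter means ordinariness. -/
lemma zero_iff (hD : D.IsSlope Q) (hδ : D.IsDefect Q δ) {𝒰 : Ultrafilter ι}
    (hU : (𝒰 : Filter ι) ≤ cofinite) {X : Sch k} (hX : Q X) :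
    (∀ c, (δ X c : Germ (𝒰 : Filter ι) ℚ) = 0) ↔ ∀ i, ∀ᶠ v in (𝒰 : Filter ι), D.Ord X i v := by
  have key : ∀ c : ℕ, (∀ᶠ v in (𝒰 : Filter ι), δ X c v = 0) ↔
      ((∀ᶠ v in (𝒰 : Filter ι), D.Ord X (2 * c) v) ∧
        ∀ᶠ v in (𝒰 : Filter ι), D.Ord X (2 * c + 1) v) := by
    intro c
    rw [← eventually_and]
    have h1 := (hδ.value X hX c).filter_mono hU
    have h2 := (hD.above X hX (2 * c)).filter_mono hU
    have h3 := (hD.above X hX (2 * c + 1)).filter_mono hU
    refine eventually_congr ?_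
    filter_upwards [h1, h2, h3] with v h1 h2 h3
    rw [h1]
    constructor
    · intro h4
      have h5 := h2.squares_le
      have h6 := h3.squares_le
      exact ⟨h5.2 (by linarith [h5.1, h6.1]), h6.2 (by linarith [h5.1, h6.1])⟩
    · rintro ⟨h4, h5⟩
      rw [SlopeData.Ord] at h4 h5
      rw [h4, h5]
      ring
  constructor
  · intro h i
    have h1 := (key (i / 2)).mp (germ_zero.mp (h _))
    rcases Nat.even_or_odd' i with ⟨c, rfl | rfl⟩
    · have h2 : 2 * c / 2 = c := by omega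
      rw [h2] at h1
      exact h1.1
    · have h2 : (2 * c + 1) / 2 = c := by omega
      rw [h2] at h1
      exact h1.2
  · intro h c
    rw [germ_zero]
    rcases lt_or_ge c 0 with hc | hc
    · exact (hδ.neg X hX c hc).filter_mono hU
    · obtain ⟨m, rfl⟩ := Int.eq_ofNat_of_zero_le hc
      exact (key m).mpr ⟨h _, h _⟩

/-- Infinite common intersections and ultrafilters. -/
lemma exists_ultra {α : Type*} {S : Set α} {E : α → Set ι}
    (h : ∀ L : List α, (∀ x ∈ L, x ∈ S) → {v | ∀ x ∈ L, v ∈ E x}.Infinite) :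
    ∃ 𝒰 : Ultrafilter ι, (𝒰 : Filter ι) ≤ cofinite ∧ ∀ x ∈ S, E x ∈ 𝒰 := by
  classical
  let F : Filter ι := ⨅ x : S, 𝓟 (E x.1)
  have hne : (cofinite ⊓ F).NeBot := by
    rw [cofinite.basis_sets.inf_basis_neBot_iff (hasBasis_iInf_principal_finite _)]
    rintro s hs t ht
    have h1 := h (ht.toFinset.toList.map Subtype.val) (by
      intro x hx
      obtain ⟨y, -, rfl⟩ := List.mem_map.mp hx
      exact y.2)
    obtain ⟨v, hv, hvs⟩ := (h1.sdiff (mem_cofinite.mp hs)).nonempty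
    refine ⟨v, by simpa using hvs, ?_⟩
    rw [Set.mem_iInter₂]
    intro i hi
    exact hv i.1 (List.mem_map.mpr ⟨i, by simpa using hi, rfl⟩)
  obtain ⟨𝒰, hU⟩ := Ultrafilter.exists_le (cofinite ⊓ F)
  refine ⟨𝒰, hU.trans inf_le_left, fun x hx => ?_⟩
  exact (hU.trans inf_le_right) (mem_iInf_of_mem ⟨x, hx⟩ (mem_principal_self _))

/-- The converse. -/
lemma infinite_of_ultra {α : Type*} {S : Set α} {E : α → Set ι} {𝒰 : Ultrafilter ι}
    (hU : (𝒰 : Filter ι) ≤ cofinite) (h : ∀ x ∈ S, E x ∈ 𝒰) (L : List α) (hL : ∀ x ∈ L, x ∈ S) :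
    {v | ∀ x ∈ L, v ∈ E x}.Infinite := by
  have h1 : {v | ∀ x ∈ L, v ∈ E x} ∈ 𝒰 := by
    induction L with
    | nil =>
      have h2 : {v : ι | ∀ x ∈ ([] : List α), v ∈ E x} = Set.univ := by
        ext v; simp
      rw [h2]
      exact Filter.univ_mem
    | cons x L ih =>
      have h2 := ih fun y hy => hL y (List.mem_cons_of_mem _ hy)
      have h3 := h x (hL x List.mem_cons_self)
      filter_upwards [h2, h3] with v h4 h5 y hy
      rcases List.mem_cons.mp hy with rfl | hy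
      · exact h5
      · exact h4 y hy
  intro hf
  have h2 : {v | ∀ x ∈ L, v ∈ E x}ᶜ ∈ 𝒰 := hU hf.compl_mem_cofinite
  exact 𝒰.compl_notMem_iff.mpr h1 h2

lemma common_iff_ultra {n : ℕ} : D.Common Q n ↔
    ∃ 𝒰 : Ultrafilter ι, (𝒰 : Filter ι) ≤ cofinite ∧
      ForClass Q (fun X => ∀ i, ∀ᶠ v in (𝒰 : Filter ι), D.Ord X i v) n := by
  constructor
  · intro h
    obtain ⟨𝒰, hU, h1⟩ := exists_ultra
      (S := {x : Sch k × ℕ | Q x.1 ∧ topologicalKrullDim x.1.left ≤ n})
      (E := fun x => {v | D.Ord x.1 x.2 v}) h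
    exact ⟨𝒰, hU, fun X hX hd i => h1 (X, i) ⟨hX, hd⟩⟩
  · rintro ⟨𝒰, hU, h⟩ L hL
    exact infinite_of_ultra (S := {x : Sch k × ℕ | Q x.1 ∧ topologicalKrullDim x.1.left ≤ n})
      (E := fun x => {v | D.Ord x.1 x.2 v}) hU (fun x hx => h x.1 hx.1 hx.2 x.2) L hL

lemma zeros_iff_ultra {R : Form k → Prop} : CommonZeros δ R ↔
    ∃ 𝒰 : Ultrafilter ι, (𝒰 : Filter ι) ≤ cofinite ∧
      ∀ F : Form k, R F → ∀ c, (δ F.hyp c : Germ (𝒰 : Filter ι) ℚ) = 0 := by
  constructor
  · intro h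
    obtain ⟨𝒰, hU, h1⟩ := exists_ultra (S := {x : Form k × ℤ | R x.1})
      (E := fun x => {v | δ x.1.hyp x.2 v = 0}) h
    exact ⟨𝒰, hU, fun F hF c => germ_zero.mpr (h1 (F, c) hF)⟩
  · rintro ⟨𝒰, hU, h⟩ L hL
    exact infinite_of_ultra (S := {x : Form k × ℤ | R x.1})
      (E := fun x => {v | δ x.1.hyp x.2 v = 0}) hU (fun x hx => germ_zero.mp (h x.1 hx x.2)) L hL

/-- all dimensions -/
lemma all_iff_ultra : (∀ L : List (Sch k × ℕ), (∀ x ∈ L, Q x.1) →
    {v | ∀ x ∈ L, D.Ord x.1 x.2 v}.Infinite) ↔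
    ∃ 𝒰 : Ultrafilter ι, (𝒰 : Filter ι) ≤ cofinite ∧
      ∀ X, Q X → ∀ i, ∀ᶠ v in (𝒰 : Filter ι), D.Ord X i v := by
  constructor
  · intro h
    obtain ⟨𝒰, hU, h1⟩ := exists_ultra (S := {x : Sch k × ℕ | Q x.1})
      (E := fun x => {v | D.Ord x.1 x.2 v}) h
    exact ⟨𝒰, hU, fun X hX i => h1 (X, i) hX⟩
  · rintro ⟨𝒰, hU, h⟩ L hL
    exact infinite_of_ultra (S := {x : Sch k × ℕ | Q x.1})
      (E := fun x => {v | D.Ord x.1 x.2 v}) hU (fun x hx => h x.1 hx x.2) L hL

/-- A single variety for a finite family. -/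
lemma exists_single (hD : D.IsSlope Q) (L : List (Sch k × ℕ)) (hL : ∀ x ∈ L, Q x.1) {X : Sch k}
    (hX : Q X) (i : ℕ) : ∃ (Z : Sch k) (n : ℕ), Q Z ∧ ∀ᶠ v in cofinite,
      D.Ord Z n v → D.Ord X i v ∧ ∀ x ∈ L, D.Ord x.1 x.2 v := by
  induction L generalizing X i with
  | nil => exact ⟨X, i, hX, Eventually.of_forall fun v h => ⟨h, by simp⟩⟩
  | cons y L ih =>
    obtain ⟨Z, n, hZ, h1⟩ := ih (fun x hx => hL x (List.mem_cons_of_mem _ hx))
      (hL y List.mem_cons_self) y.2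
    obtain ⟨W, m, hW, h2⟩ := hD.prod X Z i n hX hZ
    refine ⟨W, m, hW, ?_⟩
    filter_upwards [h1, h2] with v h1 h2 h3
    obtain ⟨h4, h5⟩ := h2 h3
    obtain ⟨h6, h7⟩ := h1 h5
    refine ⟨h4, fun x hx => ?_⟩
    rcases List.mem_cons.mp hx with rfl | hx
    · exact h6
    · exact h7 x hx

/-- **Infinitely many ordinary places for every variety mean common ordinary places for all finite
families.** -/
theorem infinite_iff [_root_.Infinite ι] (hD : D.IsSlope Q) : D.Infinite Q ↔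
    ∀ L : List (Sch k × ℕ), (∀ x ∈ L, Q x.1) → {v | ∀ x ∈ L, D.Ord x.1 x.2 v}.Infinite := by
  constructor
  · intro h L hL
    rcases L with _ | ⟨x, L⟩
    · have h1 : {v : ι | ∀ x ∈ ([] : List (Sch k × ℕ)), D.Ord x.1 x.2 v} = Set.univ := by
        ext v; simp
      rw [h1]
      exact Set.infinite_univ
    · obtain ⟨Z, n, hZ, h1⟩ := exists_single hD L (fun y hy => hL y (List.mem_cons_of_mem _ hy))
        (hL x List.mem_cons_self) x.2
      have h2 := (h Z hZ n).sdiff (mem_cofinite.mp h1)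
      refine h2.mono ?_
      rintro v ⟨h3, h4⟩ y hy
      have h5 : D.Ord Z n v → D.Ord x.1 x.2 v ∧ ∀ x ∈ L, D.Ord x.1 x.2 v := by
        by_contra h6
        exact h4 h6
      rcases List.mem_cons.mp hy with rfl | hy
      · exact (h5 h3).1
      · exact (h5 h3).2 y hy
  · intro h X hX i
    have h1 := h [(X, i)] (by simpa using hX)
    simpa using h1

variable [PerfectField k]

theorem common_of_zeros (hQ : IsClass Q) (hD : D.IsSlope Q) (hδ : D.IsDefect Q δ) {n : ℕ}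
    (h : CommonZeros δ (Form.Small (n + 2))) : D.Common Q n := by
  rw [common_iff_ultra]
  obtain ⟨𝒰, hU, h1⟩ := zeros_iff_ultra.mp h
  refine ⟨𝒰, hU, fun X hX hd => (zero_iff hD hδ hU hX).mp ?_⟩
  exact dim_of_forms (bnd_additive (additive_of_le hδ.additive hU)) h1 X (hQ.ft hX) hd

theorem zeros_of_common (hQ : IsClass Q) (hD : D.IsSlope Q) (hδ : D.IsDefect Q δ) {n : ℕ}
    (hM : ModelsIn Q n) (h : D.Common Q n) : CommonZeros δ (Form.Small (n + 2)) := by
  rw [zeros_iff_ultra]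
  obtain ⟨𝒰, hU, h1⟩ := common_iff_ultra.mp h
  refine ⟨𝒰, hU, ?_⟩
  exact (class_iff (bnd_additive (additive_of_le hδ.additive hU)) hQ hM).mp
    fun X hX hd => (zero_iff hD hδ hU hX).mpr (h1 X hX hd)

/-- **All dimensions.** -/
theorem infinite_iff_zeros [_root_.Infinite ι] (hQ : IsClass Q) (hD : D.IsSlope Q)
    (hδ : D.IsDefect Q δ) :
    (CommonZeros δ (fun _ => True) → D.Infinite Q) ∧
    ((∀ n, ModelsIn Q n) → (D.Infinite Q ↔ CommonZeros δ fun _ => True)) := by
  have key : CommonZeros δ (fun _ => True) → D.Infinite Q := by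
    intro h
    rw [infinite_iff hD, all_iff_ultra]
    obtain ⟨𝒰, hU, h1⟩ := zeros_iff_ultra.mp h
    refine ⟨𝒰, hU, fun X hX => (zero_iff hD hδ hU hX).mp ?_⟩
    exact universal (bnd_additive (additive_of_le hδ.additive hU)).toUni (S := Set.univ) trivial
      trivial (fun a b c T _ => h1 ⟨a, b, c, T⟩ trivial) presents_univ X (hQ.ft hX)
  refine ⟨key, fun hM => ⟨fun h => ?_, key⟩⟩
  rw [infinite_iff hD, all_iff_ultra] at h
  obtain ⟨𝒰, hU, h1⟩ := h
  rw [zeros_iff_ultra]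
  refine ⟨𝒰, hU, fun F _ => ?_⟩
  exact (all_iff (bnd_additive (additive_of_le hδ.additive hU)) hQ hM).mp
    (fun X hX => (zero_iff hD hδ hU hX).mpr (h1 X hX)) F

end Pool.Agent.W5h93.EX
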