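import Pool.Agent.H91.L.W5h93_EX_Defs

/-!
# Prime fields and hypergraphs: definitions
-/

set_option autoImplicit false

open CategoryTheory AlgebraicGeometry Pool.Agent.Y116.UV Pool.Agent.W5h93.EV

namespace Pool.Agent.W5h93.EX

/-- `k` is a prime field (`ℚ` or `𝔽_p`): every element is a quotient of integers. -/
def IsPrimeField (k : Type) [Field k] : Prop := ∀ x : k, ∃ a b : ℤ, (b : k) ≠ 0 ∧ (b : k) * x = a

/-- The vanishing of the invariant. -/
def Vanish {k : Type} [Field k] {M : Type*} [AddCommGroup M] (δ : Sch k → ℤ → M) (X : Sch k) : Prop :=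
  ∀ c, δ X c = 0

/-- `P` is true for the hypersurfaces `∑_{(i, j, k) ∈ H} x_i y_j z_k = 1` over `R` of all tripartite
hypergraphs `H`, that is, finite sets `H` of triples. -/
def ForHypergraphs (R : Type) [CommRing R] (P : Sch R → Prop) : Prop :=
  ∀ (a b c : ℕ) (H : Finset (Fin a × Fin b × Fin c)), P (tripS R H)

/-- **The reduction to cubic hypersurfaces** of the property `C` of the schemes of the class `Q`. The
property `P` of the hypersurfaces `T(x, y, z) = 1`, for trilinear forms `T` with a block of at most
`n + 2` variables, implies `C` for all schemes of the class of dimension at most `n`; over a prime field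
`P` for the hypersurfaces of the tripartite hypergraphs implies `C` for all schemes of the class. These
are equivalences if all integral schemes (of dimension at most `n`) have birational models in the
class. -/
structure Reduces {k : Type} [Field k] (Q C P : Sch k → Prop) : Prop where
  dim_of_forms : ∀ n, ForForms P (n + 2) → ForClass Q C n
  all_of_graphs : IsPrimeField k → ForHypergraphs k P → ∀ X, Q X → C X
  dim_iff_forms : ∀ n, ModelsIn Q n → (ForClass Q C n ↔ ForForms P (n + 2))
  all_iff_forms : (∀ n, ModelsIn Q n) → ((∀ X, Q X → C X) ↔ ∀ F : Form k, P F.hyp)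
  all_iff_graphs : (∀ n, ModelsIn Q n) → IsPrimeField k →
    ((∀ X, Q X → C X) ↔ ForHypergraphs k P)

end Pool.Agent.W5h93.EX
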