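import Mathlib

/-!
# Polynomials of degree at most two
-/

set_option autoImplicit false

open MvPolynomial

namespace Pool.Agent.W5h93.QD

variable {A : Type} [CommRing A]

lemma optL_rename {W : Type} (p : MvPolynomial W A) :
    optionEquivLeft A W (rename some p) = Polynomial.C p := by
  have h : ((optionEquivLeft A W : MvPolynomial (Option W) A →ₐ[A] _).comp (rename some)) =
      (IsScalarTower.toAlgHom A (MvPolynomial W A) (Polynomial (MvPolynomial W A))) := by
    apply MvPolynomial.algHom_ext
    intro w
    change optionEquivLeft A W (rename some (X w)) = Polynomial.C (X w)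
    rw [rename_X, optionEquivLeft_X_some]
  exact DFunLike.congr_fun h p

lemma optL_natDegree {W : Type} (q : MvPolynomial (Option W) A) :
    (optionEquivLeft A W q).natDegree ≤ q.totalDegree := by
  rw [natDegree_optionEquivLeft]
  exact degreeOf_le_totalDegree q none

/-- the coefficients have small degrees -/
lemma optL_coeff {W : Type} {q : MvPolynomial (Option W) A} {d : ℕ} (hq : q.totalDegree ≤ d)
    (i : ℕ) (hi : i ≤ d) : ((optionEquivLeft A W q).coeff i).totalDegree ≤ d - i := by
  by_cases h : i ≤ q.totalDegree
  · have h1 := totalDegree_coeff_optionEquivLeft_add_le A W q i h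
    omega
  · have h1 : (optionEquivLeft A W q).coeff i = 0 :=
      Polynomial.coeff_eq_zero_of_natDegree_lt (lt_of_le_of_lt (optL_natDegree q) (by omega))
    rw [h1, totalDegree_zero]
    exact Nat.zero_le _

/-- a polynomial of degree at most two, as a polynomial in one variable -/
lemma deg_two {W : Type} {q : MvPolynomial (Option W) A} (hq : q.totalDegree ≤ 2) :
    ∃ (α : A) (b c : MvPolynomial W A), b.totalDegree ≤ 1 ∧ c.totalDegree ≤ 2 ∧
      q = C α * X none ^ 2 + rename some b * X none + rename some c := by
  have h2 := optL_coeff hq 2 le_rfl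
  have h1 := optL_coeff hq 1 (by omega)
  have h0 := optL_coeff hq 0 (by omega)
  obtain ⟨α, hα⟩ : ∃ α, (optionEquivLeft A W q).coeff 2 = C α :=
    ⟨_, totalDegree_eq_zero_iff_eq_C.mp (by omega)⟩
  refine ⟨α, (optionEquivLeft A W q).coeff 1, (optionEquivLeft A W q).coeff 0, h1, h0, ?_⟩
  apply (optionEquivLeft A W).injective
  have h3 : (optionEquivLeft A W q).degree ≤ 2 := by
    refine Polynomial.degree_le_of_natDegree_le ?_
    exact (optL_natDegree q).trans hq
  rw [map_add, map_add, map_mul, map_mul, map_pow, optionEquivLeft_X_none, optL_rename,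
    optL_rename, optionEquivLeft_C, ← hα]
  exact Polynomial.eq_quadratic_of_degree_le_two h3

/-- a polynomial of degree at most one, as a polynomial in one variable -/
lemma deg_one {W : Type} {q : MvPolynomial (Option W) A} (hq : q.totalDegree ≤ 1) :
    ∃ (b : MvPolynomial W A), b.totalDegree ≤ 1 ∧
      q = C (coeff (Finsupp.single none 1) q) * X none + rename some b := by
  have h1 := optL_coeff hq 1 le_rfl
  have h0 := optL_coeff hq 0 (by omega)
  obtain ⟨α, hα⟩ : ∃ α, (optionEquivLeft A W q).coeff 1 = C α :=
    ⟨_, totalDegree_eq_zero_iff_eq_C.mp (by omega)⟩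
  have key : q = C α * X none + rename some ((optionEquivLeft A W q).coeff 0) := by
    apply (optionEquivLeft A W).injective
    have h3 : (optionEquivLeft A W q).degree ≤ 1 := by
      refine Polynomial.degree_le_of_natDegree_le ?_
      exact (optL_natDegree q).trans hq
    rw [map_add, map_mul, optionEquivLeft_X_none, optL_rename, optionEquivLeft_C, ← hα]
    exact Polynomial.eq_X_add_C_of_degree_le_one h3
  refine ⟨(optionEquivLeft A W q).coeff 0, h0, ?_⟩
  have h4 : coeff (Finsupp.single none 1) q = α := by
    classical
    rw [key, coeff_add, coeff_C_mul, coeff_X, if_pos rfl, mul_one]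
    have h5 : coeff (Finsupp.single (none : Option W) 1)
        (rename some ((optionEquivLeft A W q).coeff 0)) = 0 := by
      apply coeff_rename_eq_zero
      intro u hu
      exfalso
      have h6 := DFunLike.congr_fun hu none
      rw [Finsupp.mapDomain_notin_range _ _ (by rintro ⟨w, hw⟩; cases hw), Finsupp.single_eq_same]
        at h6
      omega
    rw [h5, add_zero]
  rw [h4]
  exact key

/-- no linear terms -/
lemma deg_const {V : Type} {b : MvPolynomial V A} (hb : b.totalDegree ≤ 1)
    (h : ∀ v, coeff (Finsupp.single v 1) b = 0) : b = C (coeff 0 b) := by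
  classical
  ext m
  rw [coeff_C]
  split_ifs with hm
  · rw [hm]
  · by_cases h2 : m.degree ≤ 1
    · have h3 : m.degree = 1 := by
        rcases Nat.lt_or_ge m.degree 1 with h4 | h4
        · exact absurd ((Finsupp.degree_eq_zero_iff m).mp (by omega)).symm hm
        · omega
      obtain ⟨v, hv⟩ : ∃ v, m v ≠ 0 := by
        by_contra hc
        push Not at hc
        exact hm (by ext v; exact (hc v).symm)
      have h4 : m = Finsupp.single v 1 := by
        have h5 : m.degree = ∑ i ∈ m.support, m i := rfl
        have h6 : v ∈ m.support := Finsupp.mem_support_iff.mpr hv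
        rw [← Finset.add_sum_erase _ _ h6] at h5
        have h7 : ∑ i ∈ m.support.erase v, m i = 0 := by omega
        ext u
        by_cases hu : u = v
        · rw [hu, Finsupp.single_eq_same]
          omega
        · rw [Finsupp.single_eq_of_ne hu]
          by_contra hc
          have h8 : u ∈ m.support.erase v :=
            Finset.mem_erase.mpr ⟨hu, Finsupp.mem_support_iff.mpr hc⟩
          exact hc ((Finset.sum_eq_zero_iff.mp h7) u h8)
      rw [h4]
      exact h v
    · apply coeff_eq_zero_of_totalDegree_lt
      have h5 : ∑ i ∈ m.support, m i = m.degree := rfl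
      rw [h5]
      omega

/-- substitution of polynomials of degree at most one -/
lemma deg_aeval {V W : Type} (w : V → MvPolynomial W A) (hw : ∀ v, (w v).totalDegree ≤ 1)
    (p : MvPolynomial V A) : (aeval w p).totalDegree ≤ p.totalDegree := by
  classical
  conv_lhs => rw [p.as_sum, map_sum]
  refine totalDegree_finsetSum_le fun m hm => ?_
  rw [aeval_monomial]
  refine (totalDegree_mul _ _).trans ?_
  have h1 : (algebraMap A (MvPolynomial W A) (coeff m p)).totalDegree = 0 := totalDegree_C _
  rw [h1, zero_add]
  refine (totalDegree_finsetProd _ _).trans ?_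
  refine le_trans (Finset.sum_le_sum fun i _ => ?_) (le_totalDegree hm)
  refine (totalDegree_pow _ _).trans ?_
  calc m i * (w i).totalDegree ≤ m i * 1 := Nat.mul_le_mul_left _ (hw i)
    _ = m i := mul_one _

lemma deg_map {V : Type} {B : Type} [CommRing B] (f : A →+* B) (p : MvPolynomial V A) :
    (MvPolynomial.map f p).totalDegree ≤ p.totalDegree :=
  Finset.sup_mono (support_map_subset f p)

end Pool.Agent.W5h93.QD
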