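import Pool.Agent.H91.L.W5h93_QD_Jst

/-!
# Linear combinations of quadratic equations as one quadratic equation over an affine space
-/

set_option autoImplicit false

open CategoryTheory AlgebraicGeometry MvPolynomial Pool.Agent.Y116.UV Pool.Agent.Z125.UN

namespace Pool.Agent.W5h93.QD

section fam

variable {R : Type} [CommRing R] {A : Type} [CommRing A] [Algebra R A] {V : Type}
  (G : Set (MvPolynomial V A)) {κ : Type} [Fintype κ] (q : Option κ → MvPolynomial V A)

lemma map_tower {S S' : Type} [CommRing S] [Algebra R S] [CommRing S'] [Algebra R S']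
    (φ : S →ₐ[R] S') (f : A →ₐ[R] S) (v : V → S) (p : MvPolynomial V A) :
    φ (aevalTower f v p) = aevalTower (φ.comp f) (fun o => φ (v o)) p := by
  have h : φ.comp (aevalTower f v) = aevalTower (φ.comp f) (fun o => φ (v o)) := by
    apply MvPolynomial.algHom_ext'
    · ext a
      change φ (aevalTower f v (C a)) = aevalTower (φ.comp f) _ (C a)
      rw [aevalTower_C, aevalTower_C]
      rfl
    · intro o
      rw [AlgHom.comp_apply, aevalTower_X, aevalTower_X]
  exact DFunLike.congr_fun h p

/-- the classes of the equations -/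
noncomputable abbrev cls (o : Option κ) : Sys A V G := Ideal.Quotient.mk (Ideal.span G) (q o)

/-- the constants -/
noncomputable abbrev cc (R A κ : Type) [CommRing R] [CommRing A] [Algebra R A] :
    A →ₐ[R] MvPolynomial κ A := IsScalarTower.toAlgHom R A (MvPolynomial κ A)

/-- the linear combination of the equations -/
noncomputable def lc (R : Type) [CommRing R] [Algebra R A] :
    MvPolynomial V (MvPolynomial κ A) :=
  MvPolynomial.map (cc R A κ : A →+* _) (q none) +
    ∑ l, C (X l) * MvPolynomial.map (cc R A κ : A →+* _) (q (some l))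

/-- the equations over the affine space -/
abbrev G' (R : Type) [CommRing R] [Algebra R A] : Set (MvPolynomial V (MvPolynomial κ A)) :=
  insert (lc q R) (mapG (cc R A κ : A →+* _) G)

lemma fam0_h : ∀ g ∈ G, aevalTower ((cS R (G' G q R)).comp (cc R A κ)) (xS (G' G q R)) g = 0 := by
  intro g hg
  rw [← tower_map, aeval_xS]
  exact mk_zero (Or.inr ⟨g, hg, rfl⟩)

/-- base change to the affine space -/
noncomputable def fam0 : Sys A V G →ₐ[R] Sys (MvPolynomial κ A) V (G' G q R) :=
  liftS ((cS R (G' G q R)).comp (cc R A κ)) (xS (G' G q R)) (fam0_h G q)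

lemma fam0_c (a : A) : fam0 G q (cS R G a) = cS R (G' G q R) (C a) := liftS_c _ _ _ _

lemma fam0_x (v : V) : fam0 (R := R) G q (xS G v) = xS (G' G q R) v := liftS_x _ _ _ _

lemma fam0_mk (p : MvPolynomial V A) : fam0 (R := R) G q (Ideal.Quotient.mk _ p) =
    Ideal.Quotient.mk _ (MvPolynomial.map (cc R A κ : A →+* _) p) := by
  rw [fam0, liftS_mk, ← tower_map, aeval_xS]

lemma fam1_h : ∀ g ∈ ({ff (cls G q)} : Set (MvPolynomial κ (Sys A V G))),
    aevalTower (fam0 (R := R) G q) (fun l => cS R (G' G q R) (X l)) g = 0 := by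
  intro g hg
  rw [Set.mem_singleton_iff.mp hg]
  change (aevalTower (fam0 (R := R) G q) (fun l => cS R (G' G q R) (X l)) :
    MvPolynomial κ (Sys A V G) →+* Sys (MvPolynomial κ A) V (G' G q R)) (ff (cls G q)) = 0
  rw [ff_map]
  change aevalTower (fam0 (R := R) G q) _ _ + ∑ l, aevalTower (fam0 (R := R) G q) _ _ *
    aevalTower (fam0 (R := R) G q) _ _ = 0
  have h1 : Ideal.Quotient.mk (Ideal.span (G' G q R)) (lc q R) = 0 := mk_zero (Or.inl rfl)
  rw [← h1, lc, map_add, map_sum, aevalTower_C, fam0_mk]
  congr 1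
  refine Finset.sum_congr rfl fun l _ => ?_
  rw [aevalTower_C, aevalTower_X, fam0_mk, map_mul, mul_comm]
  rfl

/-- to the system over the affine space -/
noncomputable def fam1 : Sys (Sys A V G) κ {ff (cls G q)} →ₐ[R]
    Sys (MvPolynomial κ A) V (G' G q R) :=
  liftS (fam0 G q) (fun l => cS R (G' G q R) (X l)) (fam1_h G q)

variable (R) in
/-- the constants of the other direction -/
noncomputable def fam2 : MvPolynomial κ A →ₐ[R] Sys (Sys A V G) κ {ff (cls G q)} :=
  aevalTower ((cS R {ff (cls G q)}).comp (cS R G)) (xS _)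

lemma fam2_C (a : A) : fam2 R G q (C a) = cS R _ (cS R G a) := aevalTower_C _ _ _

lemma fam2_X (l : κ) : fam2 R G q (X l) = xS _ l := aevalTower_X _ _ _

lemma fam2_map (p : MvPolynomial V A) :
    aevalTower (fam2 R G q) (fun v => cS R {ff (cls G q)} (xS G v))
      (MvPolynomial.map (cc R A κ : A →+* _) p) = cS R _ (Ideal.Quotient.mk (Ideal.span G) p) := by
  rw [tower_map, ← aeval_xS (R := R) (G := G), map_tower]
  congr 2
  ext a
  exact fam2_C G q a

lemma fam3_h : ∀ g ∈ G' G q R,
    aevalTower (fam2 R G q) (fun v => cS R {ff (cls G q)} (xS G v)) g = 0 := by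
  rintro g (rfl | ⟨p, hp, rfl⟩)
  · rw [lc, map_add, map_sum, fam2_map]
    have h1 : Ideal.Quotient.mk (Ideal.span {ff (cls G q)}) (ff (cls G q)) = 0 :=
      mk_zero (Set.mem_singleton _)
    rw [← h1, ff_map]
    congr 1
    refine Finset.sum_congr rfl fun l _ => ?_
    rw [map_mul, fam2_map, aevalTower_C, fam2_X, mul_comm]
    rfl
  · rw [fam2_map, mk_zero hp, map_zero]

/-- from the system over the affine space -/
noncomputable def fam3 : Sys (MvPolynomial κ A) V (G' G q R) →ₐ[R]
    Sys (Sys A V G) κ {ff (cls G q)} :=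
  liftS (fam2 R G q) (fun v => cS R {ff (cls G q)} (xS G v)) (fam3_h G q)

lemma fam1_c (e : Sys A V G) : fam1 (R := R) G q (cS R _ e) = fam0 G q e := liftS_c _ _ _ _

lemma fam1_x (l : κ) : fam1 (R := R) G q (xS _ l) = cS R _ (X l) := liftS_x _ _ _ _

lemma fam3_c (p : MvPolynomial κ A) : fam3 (R := R) G q (cS R _ p) = fam2 R G q p :=
  liftS_c _ _ _ _

lemma fam3_x (v : V) : fam3 (R := R) G q (xS _ v) = cS R _ (xS G v) := liftS_x _ _ _ _

/-- The hypersurface in the variables `κ` over the system `G`, as a system over the affine space. -/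
noncomputable def famE : Sys (Sys A V G) κ {ff (cls G q)} ≃ₐ[R]
    Sys (MvPolynomial κ A) V (G' G q R) := by
  refine AlgEquiv.ofAlgHom (fam1 G q) (fam3 G q) ?_ ?_
  · apply extS
    · intro p
      have h : ((fam1 (R := R) G q).comp (fam3 G q)).comp (cS R _) = cS R _ := by
        apply MvPolynomial.algHom_ext'
        · ext a
          change fam1 (R := R) G q (fam3 G q (cS R _ (C a))) = cS R _ (C a)
          rw [fam3_c, fam2_C, fam1_c, fam0_c]
        · intro l
          change fam1 (R := R) G q (fam3 G q (cS R _ (X l))) = cS R _ (X l)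
          rw [fam3_c, fam2_X, fam1_x]
      exact DFunLike.congr_fun h p
    · intro v
      rw [AlgHom.comp_apply, fam3_x, fam1_c, fam0_x]
      rfl
  · apply extS
    · intro e
      have h : ((fam3 (R := R) G q).comp (fam1 G q)).comp (cS R _) = cS R _ := by
        apply extS
        · intro a
          rw [AlgHom.comp_apply, AlgHom.comp_apply, fam1_c, fam0_c, fam3_c, fam2_C]
        · intro v
          rw [AlgHom.comp_apply, AlgHom.comp_apply, fam1_c, fam0_x, fam3_x]
      exact DFunLike.congr_fun h e
    · intro l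
      rw [AlgHom.comp_apply, fam1_x, fam3_c, fam2_X]
      rfl

lemma deg_lc (hq : ∀ o, (q o).totalDegree ≤ 2) : (lc q R).totalDegree ≤ 2 := by
  rw [lc]
  refine (totalDegree_add _ _).trans (max_le ((deg_map _ _).trans (hq none)) ?_)
  refine (totalDegree_finsetSum _ _).trans (Finset.sup_le fun l _ => ?_)
  refine (totalDegree_mul _ _).trans ?_
  rw [totalDegree_C, zero_add]
  exact (deg_map _ _).trans (hq (some l))

end fam

end Pool.Agent.W5h93.QD
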