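import Pool.Agent.H91.L.W5h93_QD_Sys

/-!
# Isomorphisms of systems of equations
-/

set_option autoImplicit false

open MvPolynomial

namespace Pool.Agent.W5h93.QD

section

variable {R : Type} [CommRing R] {A : Type} [CommRing A] [Algebra R A]

/-- equivalent equations -/
noncomputable def eqE {V : Type} {G G' : Set (MvPolynomial V A)}
    (h : Ideal.span G = Ideal.span G') : Sys A V G ≃ₐ[R] Sys A V G' :=
  Ideal.quotientEquivAlgOfEq R h

/-- change of coordinates -/
noncomputable def autE {V V' : Type} (φ : MvPolynomial V A ≃ₐ[A] MvPolynomial V' A)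
    (G : Set (MvPolynomial V A)) : Sys A V G ≃ₐ[R] Sys A V' (φ '' G) :=
  Ideal.quotientEquivAlg (Ideal.span G) (Ideal.span (φ '' G)) (φ.restrictScalars R)
    (by rw [Ideal.map_span]; rfl)

/-- no equations -/
noncomputable def emptyE (V : Type) : Sys A V (∅ : Set (MvPolynomial V A)) ≃ₐ[R]
    MvPolynomial V A :=
  (Ideal.quotientEquivAlgOfEq R (by rw [Ideal.span_empty])).trans
    (AlgEquiv.quotientBot R (MvPolynomial V A))

section clo

variable {V : Type} (I : Ideal A) (G : Set (MvPolynomial V A))

/-- the equations of the ideal of the base and the others -/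
abbrev addI : Set (MvPolynomial V A) := C '' (I : Set A) ∪ G

/-- the constants -/
noncomputable def cloIC : A ⧸ I →ₐ[R] Sys A V (addI I G) :=
  Ideal.Quotient.liftₐ I (cS R (addI I G)) (fun a ha => mk_zero (Or.inl ⟨a, ha, rfl⟩))

lemma cloIC_mk (a : A) : cloIC (R := R) I G (Ideal.Quotient.mk I a) = cS R _ a := rfl

/-- to the closed subscheme of the base -/
noncomputable def cloIA : Sys A V (addI I G) →ₐ[R]
    Sys (A ⧸ I) V (mapG (Ideal.Quotient.mkₐ R I : A →+* _) G) :=
  liftS ((cS R _).comp (Ideal.Quotient.mkₐ R I)) (xS _) (by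
    rintro g (⟨a, ha, rfl⟩ | hg)
    · rw [aevalTower_C, AlgHom.comp_apply]
      have h : Ideal.Quotient.mkₐ R I a = 0 := Ideal.Quotient.eq_zero_iff_mem.mpr ha
      rw [h, map_zero]
    · rw [← tower_map, aeval_xS]
      exact mk_zero ⟨g, hg, rfl⟩)

lemma cloIB_h (g : MvPolynomial V (A ⧸ I))
    (hg : g ∈ mapG (Ideal.Quotient.mkₐ R I : A →+* _) G) :
    aevalTower (cloIC (R := R) I G) (xS (addI I G)) g = 0 := by
  obtain ⟨p, hp, rfl⟩ := hg
  rw [tower_map]
  have h : (cloIC (R := R) I G).comp (Ideal.Quotient.mkₐ R I) = cS R (addI I G) := rfl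
  rw [h, aeval_xS]
  exact mk_zero (Or.inr hp)

/-- from the closed subscheme of the base -/
noncomputable def cloIB : Sys (A ⧸ I) V (mapG (Ideal.Quotient.mkₐ R I : A →+* _) G) →ₐ[R]
    Sys A V (addI I G) :=
  liftS (cloIC I G) (xS _) (cloIB_h I G)

/-- Equations which only involve the base. -/
noncomputable def cloI : Sys A V (addI I G) ≃ₐ[R]
    Sys (A ⧸ I) V (mapG (Ideal.Quotient.mkₐ R I : A →+* _) G) := by
  refine AlgEquiv.ofAlgHom (cloIA I G) (cloIB I G) ?_ ?_
  · apply extS
    · intro b
      obtain ⟨a, rfl⟩ := Ideal.Quotient.mk_surjective b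
      change cloIA I G (liftS (cloIC I G) (xS _) (cloIB_h I G) (cS R _ (Ideal.Quotient.mk I a))) = _
      rw [liftS_c, cloIC_mk, cloIA, liftS_c]
      rfl
    · intro v
      change cloIA I G (liftS (cloIC I G) (xS _) (cloIB_h I G) (xS _ v)) = _
      rw [liftS_x, cloIA, liftS_x]
      rfl
  · apply extS
    · intro a
      rw [AlgHom.comp_apply, cloIA, liftS_c]
      change liftS (cloIC I G) (xS _) (cloIB_h I G) (cS R _ (Ideal.Quotient.mk I a)) = _
      rw [liftS_c]
      rfl
    · intro v
      rw [AlgHom.comp_apply, cloIA, liftS_x]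
      change liftS (cloIC I G) (xS _) (cloIB_h I G) (xS _ v) = _
      rw [liftS_x]
      rfl

end clo

section elim

lemma tower_aeval {V W : Type} {S : Type} [CommRing S] [Algebra R S] (f : A →ₐ[R] S) (v : W → S)
    (w : V → MvPolynomial W A) (p : MvPolynomial V A) :
    aevalTower f v (aeval w p) = aevalTower f (fun o => aevalTower f v (w o)) p := by
  have h : ((aevalTower f v : MvPolynomial W A →ₐ[R] S) : MvPolynomial W A →+* S).comp
      (aeval w : MvPolynomial V A →ₐ[A] MvPolynomial W A) =
      ((aevalTower f (fun o => aevalTower f v (w o)) : MvPolynomial V A →ₐ[R] S) :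
        MvPolynomial V A →+* S) := by
    apply MvPolynomial.ringHom_ext
    · intro a
      change aevalTower f v (aeval w (C a)) = aevalTower f _ (C a)
      rw [aevalTower_C, aeval_C]
      exact aevalTower_C _ _ _
    · intro i
      change aevalTower f v (aeval w (X i)) = aevalTower f _ (X i)
      rw [aeval_X, aevalTower_X]
  exact congrArg (fun φ : MvPolynomial V A →+* S => φ p) h

variable {W : Type} (G : Set (MvPolynomial (Option W) A)) (t : MvPolynomial W A)

/-- substitution of `t` for the variable `none` -/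
noncomputable abbrev subst : MvPolynomial (Option W) A →ₐ[A] MvPolynomial W A :=
  aeval (fun o => o.elim t X)

lemma tower_some (p : MvPolynomial W A) :
    aevalTower (cS R G) (fun w => xS G (some w)) p =
      Ideal.Quotient.mk (Ideal.span G) (rename some p) := by
  have h1 : (rename some p : MvPolynomial (Option W) A) = aeval (fun w => X (some w)) p := by
    have h2 : (rename some : MvPolynomial W A →ₐ[A] MvPolynomial (Option W) A) =
        aeval (fun w => X (some w)) := by
      apply MvPolynomial.algHom_ext
      intro w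
      rw [rename_X, aeval_X]
    rw [h2]
  rw [h1, ← aeval_xS (R := R), tower_aeval]
  congr 1
  congr 1
  funext w
  rw [aevalTower_X]

variable (h : X none - rename some t ∈ Ideal.span G)

include h in
lemma subst_back (p : MvPolynomial (Option W) A) :
    aevalTower (cS R G) (fun w => xS G (some w)) (subst t p) =
      Ideal.Quotient.mk (Ideal.span G) p := by
  rw [tower_aeval, ← aeval_xS (R := R)]
  congr 1
  congr 1
  funext o
  rcases o with _ | w
  · change aevalTower (cS R G) (fun w => xS G (some w)) t = xS G none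
    rw [tower_some]
    refine (Ideal.Quotient.eq.mpr ?_).symm
    exact h
  · change aevalTower (cS R G) (fun w => xS G (some w)) (X w) = xS G (some w)
    rw [aevalTower_X]

/-- elimination -/
noncomputable def elimA : Sys A (Option W) G →ₐ[R] Sys A W (subst t '' G) :=
  liftS (cS R _) (fun o => aevalTower (cS R _) (xS _) (o.elim t X)) (by
    intro g hg
    rw [← tower_aeval, aeval_xS]
    exact mk_zero ⟨g, hg, rfl⟩)

/-- elimination, backwards -/
noncomputable def elimB : Sys A W (subst t '' G) →ₐ[R] Sys A (Option W) G :=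
  liftS (cS R _) (fun w => xS G (some w)) (by
    rintro _ ⟨p, hp, rfl⟩
    rw [subst_back G t h]
    exact mk_zero hp)

/-- Elimination of a variable. -/
noncomputable def elimE : Sys A (Option W) G ≃ₐ[R] Sys A W (subst t '' G) := by
  refine AlgEquiv.ofAlgHom (elimA G t) (elimB G t h) ?_ ?_
  · apply extS
    · intro a
      rw [AlgHom.comp_apply, elimB, liftS_c, elimA, liftS_c]
      rfl
    · intro w
      rw [AlgHom.comp_apply, elimB, liftS_x, elimA, liftS_x]
      exact aevalTower_X _ _ _
  · apply extS
    · intro a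
      rw [AlgHom.comp_apply, elimA, liftS_c, elimB, liftS_c]
      rfl
    · intro o
      rw [AlgHom.comp_apply, elimA, liftS_x, aeval_xS]
      rcases o with _ | w
      · change elimB G t h (Ideal.Quotient.mk _ t) = xS G none
        rw [elimB, liftS_mk, tower_some]
        exact (Ideal.Quotient.eq.mpr h).symm
      · change elimB G t h (xS _ w) = xS G (some w)
        rw [elimB, liftS_x]

end elim

section opt

/-- one variable over the polynomial ring in the others -/
noncomputable def optP (A : Type) [CommRing A] (W : Type) :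
    MvPolynomial (Option W) A ≃ₐ[A] MvPolynomial PUnit.{1} (MvPolynomial W A) :=
  (optionEquivLeft A W).trans ((uniqueAlgEquiv (MvPolynomial W A) PUnit.{1}).symm.restrictScalars A)

lemma optP_none (W : Type) : optP A W (X none) = X PUnit.unit := by
  rw [optP, AlgEquiv.trans_apply, optionEquivLeft_X_none]
  change (uniqueAlgEquiv (MvPolynomial W A) PUnit.{1}).symm Polynomial.X = _
  rw [AlgEquiv.symm_apply_eq, uniqueAlgEquiv_apply, eval₂_X]

lemma optP_rename {W : Type} (p : MvPolynomial W A) : optP A W (rename some p) = C p := by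
  have h : ((optP A W : MvPolynomial (Option W) A →ₐ[A] _).comp (rename some)) =
      (IsScalarTower.toAlgHom A (MvPolynomial W A) (MvPolynomial PUnit.{1} (MvPolynomial W A))) := by
    apply MvPolynomial.algHom_ext
    intro w
    change optP A W (rename some (X w)) = C (X w)
    rw [rename_X, optP, AlgEquiv.trans_apply, optionEquivLeft_X_some]
    change (uniqueAlgEquiv (MvPolynomial W A) PUnit.{1}).symm (Polynomial.C (X w)) = _
    rw [AlgEquiv.symm_apply_eq, uniqueAlgEquiv_apply, eval₂_C]
  exact DFunLike.congr_fun h p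

/-- the system as a system in one variable over the polynomial ring -/
noncomputable def optE {W : Type} (G : Set (MvPolynomial (Option W) A)) :
    Sys A (Option W) G ≃ₐ[R] Sys (MvPolynomial W A) PUnit.{1} (optP A W '' G) :=
  Ideal.quotientEquivAlg (Ideal.span G) (Ideal.span (optP A W '' G))
    ((optP A W).restrictScalars R) (by rw [Ideal.map_span]; rfl)

end opt

section unit

/-- the linear equation `β x + γ = 0` in one variable -/
def lin1 (β γ : A) : Set (MvPolynomial PUnit.{1} A) := {C β * X PUnit.unit + C γ}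

lemma lin1_rel (β γ : A) : cS R (lin1 β γ) β * xS (lin1 β γ) PUnit.unit + cS R (lin1 β γ) γ = 0 := by
  have h3 : Ideal.Quotient.mk (Ideal.span (lin1 β γ)) (C β * X PUnit.unit + C γ) = 0 :=
    mk_zero (Set.mem_singleton _)
  rw [map_add, map_mul] at h3
  exact h3

lemma lin1_lift {S : Type} [CommRing S] [Algebra R S] {β γ : A} (f : A →ₐ[R] S) (x : S)
    (h : f β * x + f γ = 0) : ∀ g ∈ lin1 β γ, aevalTower f (fun _ => x) g = 0 := by
  intro g hg
  rw [Set.mem_singleton_iff.mp hg, map_add, map_mul, aevalTower_C, aevalTower_C, aevalTower_X]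
  exact h

/-- a linear equation in one variable with a unit as the coefficient -/
noncomputable def unitE {β : A} (β' : A) (hβ : β' * β = 1) (γ : A) :
    Sys A PUnit.{1} (lin1 β γ) ≃ₐ[R] A := by
  have h0 : (AlgHom.id R A) β * (-(β' * γ)) + (AlgHom.id R A) γ = 0 := by
    rw [AlgHom.id_apply, AlgHom.id_apply]
    linear_combination -γ * hβ
  refine AlgEquiv.ofAlgHom (liftS (AlgHom.id R A) (fun _ => -(β' * γ))
    (lin1_lift (AlgHom.id R A) (-(β' * γ)) h0)) (cS R (lin1 β γ)) ?_ ?_
  · apply AlgHom.ext
    intro a
    exact liftS_c (G := lin1 β γ) (AlgHom.id R A) (fun _ => -(β' * γ))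
      (lin1_lift (AlgHom.id R A) (-(β' * γ)) h0) a
  · apply extS
    · intro a
      rw [AlgHom.comp_apply, liftS_c]
      rfl
    · intro v
      have h1 := lin1_rel (R := R) β γ
      have h2 : cS R (lin1 β γ) β' * cS R (lin1 β γ) β = 1 := by
        rw [← map_mul, hβ, map_one]
      have h4 : cS R (lin1 β γ) (-(β' * γ)) = xS (lin1 β γ) v := by
        rw [map_neg, map_mul]
        linear_combination (-cS R (lin1 β γ) β') * h1 + xS (lin1 β γ) PUnit.unit * h2
      rw [AlgHom.comp_apply, liftS_x]
      exact h4

end unit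

end

end Pool.Agent.W5h93.QD
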