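import Pool.Agent.H91.L.W5h93_QD_Fam
import Pool.Agent.H89.L.Z125_UN_Dim2

/-!
# Systems of quadratic equations
-/

set_option autoImplicit false

open CategoryTheory AlgebraicGeometry MvPolynomial Pool.Agent.Y116.UV Pool.Agent.Z125.UN

namespace Pool.Agent.W5h93.QD

lemma dim_integral {A B : Type} [CommRing A] [CommRing B] [Algebra A B]
    [Algebra.IsIntegral A B] : ringKrullDim B ≤ ringKrullDim A :=
  Order.krullDim_le_of_strictMono (fun p : PrimeSpectrum B => PrimeSpectrum.comap (algebraMap A B) p)
    fun p q h => by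
      have h1 : p.asIdeal < q.asIdeal := h
      exact Ideal.IsIntegral.comap_lt_comap h1

lemma dim_sq {A : Type} [CommRing A] (u : A) : ringKrullDim (Sq A u) ≤ ringKrullDim A := by
  have h : (Polynomial.X ^ 2 - Polynomial.C u : Polynomial A).Monic :=
    Polynomial.monic_X_pow_sub_C u two_ne_zero
  have : Module.Finite A (Sq A u) := h.finite_adjoinRoot
  exact dim_integral

lemma base_dim {R : Type} [CommRing R] (d : ℕ) :
    Base (R := R) (fun A _ _ => ringKrullDim A ≤ d) where
  quot A _ _ hA I := (ringKrullDim_quotient_le I).trans hA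
  away A _ _ hA e := (dim_away e).trans hA
  sq A _ _ hA u := (dim_sq u).trans hA

section

variable {R : Type} [CommRing R] [IsNoetherianRing R] {sep : Prop} {P : Sch R → Prop}
  (hP : Bnd sep P)

/-- **Systems of quadratic equations.** -/
theorem quadrics (hP : Bnd sep P) (hD : DoubleCovers P) {t0 : R} (ht0 : t0 + t0 = 1) {n : ℕ}
    (hK : ∀ (A : Type) [CommRing A] [Algebra R A] [Algebra.FiniteType R A],
      ringKrullDim A ≤ n → P (aff R A))
    {A : Type} [CommRing A] [Algebra R A] [Algebra.FiniteType R A] {s r : ℕ} (hA : ringKrullDim A ≤ s)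
    (hn : s + r ≤ n) {V κ : Type} [Fintype V] [Finite κ] (b : κ → MvPolynomial V A)
    (q : Fin (r + 1) → MvPolynomial V A) (hb : ∀ j, (b j).totalDegree ≤ 1)
    (hq : ∀ l, (q l).totalDegree ≤ 2) :
    P (aff R (Sys A V (Set.range b ∪ Set.range q))) := by
  have htl := tl_all (K := fun A _ _ => ringKrullDim A ≤ n) hP hD (base_dim n) hK ht0
  have hAn : ringKrullDim A ≤ n := hA.trans (by exact_mod_cast (by omega : s ≤ n))
  have hNA : IsNoetherianRing A := Algebra.FiniteType.isNoetherianRing R A
  -- the linear equations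
  have hE : P (aff R (Sys A V (Set.range b))) := by
    have h1 := htl (Fintype.card V) A hAn V rfl κ b 0 hb (by rw [totalDegree_zero]; omega)
    refine p_eq hP ?_ h1
    rw [Ideal.span_insert_zero]
  let f : Fin (r + 1) → Sys A V (Set.range b) := fun l => Ideal.Quotient.mk _ (q l)
  have hJ : P (aff R (Sys (Sys A V (Set.range b)) (Fin (r + 1)) (JG f))) := by
    refine jou_all hP hE (fun e => ∃ p : MvPolynomial V A, p.totalDegree ≤ 2 ∧
      Ideal.Quotient.mk _ p = e) (r + 1) ?_ (r + 1) le_rfl (Fin (r + 1)) (Fintype.card_fin _) f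
      fun l => ⟨q l, hq l, rfl⟩
    intro κ' _ hκ' g hg
    choose p hp hpg using hg
    have hg' : g = cls (Set.range b) p := funext fun o => (hpg o).symm
    rw [hg']
    have : Algebra.FiniteType R (MvPolynomial κ' A) :=
      Algebra.FiniteType.trans (S := A) inferInstance inferInstance
    refine iso_alg hP.toUni (famE (R := R) (Set.range b) p).symm ?_
    have hdim : ringKrullDim (MvPolynomial κ' A) ≤ n := by
      rw [MvPolynomial.ringKrullDim_of_isNoetherianRing, Nat.card_eq_fintype_card]
      refine (add_le_add hA (show ((Fintype.card κ' : ℕ) : WithBot ℕ∞) ≤ (r : ℕ) from ?_)).trans ?_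
      · exact_mod_cast (by omega : Fintype.card κ' ≤ r)
      · exact_mod_cast hn
    have h2 := htl (Fintype.card V) (MvPolynomial κ' A) hdim V rfl κ
      (fun j => MvPolynomial.map (cc R A κ' : A →+* _) (b j)) (lc p R)
      (fun j => (deg_map _ _).trans (hb j)) (deg_lc p hp)
    refine p_eq hP ?_ h2
    congr 1
    rw [G', mapG, ← Set.range_comp]
    rfl
  have h3 := of_jou hP.toUni f hE hJ
  have h4 : Ideal.span (Set.range f) =
      Ideal.map (Ideal.Quotient.mkₐ R (Ideal.span (Set.range b))) (Ideal.span (Set.range q)) := by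
    rw [Ideal.map_span, ← Set.range_comp]
    rfl
  rw [h4] at h3
  have h5 := iso_alg hP.toUni (DoubleQuot.quotQuotEquivQuotSupₐ R (Ideal.span (Set.range b))
    (Ideal.span (Set.range q))) h3
  rw [← Ideal.span_union] at h5
  exact h5

end

end Pool.Agent.W5h93.QD
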