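import Pool.Agent.H91.L.W5h93_WC_Defs

/-!
# Murre's conjectures: definitions
-/

set_option autoImplicit false

open CategoryTheory Limits MonoidalCategory AlgebraicGeometry Pool.Agent.Y116.UV

universe v u v' u'

namespace Pool.Agent.W5h93.WC

variable {𝒜 : Type u} [Category.{v} 𝒜] [Preadditive 𝒜] {𝒢 : Type u'} [Category.{v'} 𝒢]
  [Preadditive 𝒢]

/-- The homology `H_j(M)` of the motive `M` is zero for `j ≠ i`. -/
def Pure (H : ℤ → 𝒜 ⥤ 𝒢) (i : ℤ) (M : 𝒜) : Prop := ∀ j, j ≠ i → IsZero ((H j).obj M)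

/-- The morphism `f` is homologically trivial. -/
def Triv (H : ℤ → 𝒜 ⥤ 𝒢) {M N : 𝒜} (f : M ⟶ N) : Prop := ∀ j, (H j).map f = 0

/-- The endomorphisms `p i` are the projectors of a Chow-Künneth decomposition `M = ⨁ M_i`: a finite
decomposition such that `H_j(M_i) = 0` for `j ≠ i`. -/
structure IsCK (H : ℤ → 𝒜 ⥤ 𝒢) (M : 𝒜) (p : ℤ → (M ⟶ M)) : Prop where
  idem : ∀ i, p i ≫ p i = p i
  orth : ∀ i j, i ≠ j → p i ≫ p j = 0
  sum : ∃ s : Finset ℤ, (∀ i, i ∉ s → p i = 0) ∧ ∑ i ∈ s, p i = 𝟙 M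
  kun : ∀ i j, j ≠ i → (H j).map (p i) = 0

/-- The element `f` of `CH_l(M)`, a morphism `T l → M`, is in `F^ν`, the sum of the `CH_l(M_i)` with
`i ≥ 2 l + ν`. -/
def Fil {T : ℤ → 𝒜} {M : 𝒜} (p : ℤ → (M ⟶ M)) {l : ℤ} (ν : ℤ) (f : T l ⟶ M) : Prop :=
  ∀ i, i < 2 * l + ν → f ≫ p i = 0

/-- **Murre's conjectures** for the motive `M`: (A) there is a Chow-Künneth decomposition `M = ⨁ M_i`
such that (B) `CH_l(M_i) = 0` for `i < 2 l`, and (D) the homologically trivial elements of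
`CH_l(M_(2 l))` are zero; (C) any two Chow-Künneth decompositions define the same filtrations of the
groups `CH_l(M)`. -/
structure Murre (T : ℤ → 𝒜) (H : ℤ → 𝒜 ⥤ 𝒢) (M : 𝒜) : Prop where
  ABD : ∃ p, IsCK H M p ∧ (∀ (l : ℤ) (f : T l ⟶ M), Fil p 0 f) ∧
    ∀ (l : ℤ) (f : T l ⟶ M), Triv H (f ≫ p (2 * l)) → f ≫ p (2 * l) = 0
  C : ∀ p p', IsCK H M p → IsCK H M p' → ∀ (l ν : ℤ) (f : T l ⟶ M), Fil p ν f → Fil p' ν f

/-- `M` is a strong Murre motive with respect to a class `𝒩` of motives: it is in the class, and there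
is a Chow-Künneth decomposition `M = ⨁ M_i` such that for all motives `N` of the class with homology
only in degree `j` there are no nonzero morphisms `N → M_i` for `i < j`, and no nonzero homologically
trivial morphisms `N → M_j`. -/
def Strong (H : ℤ → 𝒜 ⥤ 𝒢) (𝒩 : 𝒜 → Prop) (M : 𝒜) : Prop :=
  𝒩 M ∧ ∃ p, IsCK H M p ∧ ∀ (j : ℤ) (N : 𝒜) (f : N ⟶ M), 𝒩 N → Pure H j N →
    (∀ i, i < j → f ≫ p i = 0) ∧ (Triv H f → f ≫ p j = 0)

/-- The functors `H j` are a homology theory on the tensor category `𝒜` with the Tate objects `T l`. -/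
structure IsHomology [MonoidalCategory 𝒜] (T : ℤ → 𝒜) (H : ℤ → 𝒜 ⥤ 𝒢) : Prop where
  additive : ∀ j, (H j).Additive
  tate : ∀ l, Pure H (2 * l) (T l)
  tensor : ∀ i j M N, Pure H i M → Pure H j N → Pure H (i + j) (M ⊗ N)
  dual : ∀ i M M', Nonempty (ExactPairing M M') → Pure H i M → Pure H (-i) M'
  triv : ∀ (M N L : 𝒜) (f : M ⟶ N), Triv H f → Triv H (f ▷ L)

/-- The motive `A` is obtained from the motives `h X` of the schemes `X` with the property `Q` by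
finite direct sums, Tate twists and direct summands. -/
def Gen {S : Type*} [MonoidalCategory 𝒜] [HasBinaryBiproducts 𝒜] (T : ℤ → 𝒜) (h : S → 𝒜)
    (Q : S → Prop) (A : 𝒜) : Prop :=
  ∀ V : 𝒜 → Prop, (∀ A B, V A → V B → V (A ⊞ B)) → (∀ A (l : ℤ), V A → V (A ⊗ T l)) →
    (∀ (A B : 𝒜) (s : A ⟶ B) (r : B ⟶ A), s ≫ r = 𝟙 A → V B → V A) →
    (∀ X, Q X → V (h X)) → V A

/-- The motive `A` is a motive of dimension at most `n`: it is obtained from the motives `h X` of the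
schemes `X` of the class `Q` of dimension at most `n` by finite direct sums, Tate twists and direct
summands. -/
abbrev DimGen {k : Type} [Field k] [MonoidalCategory 𝒜] [HasBinaryBiproducts 𝒜] (T : ℤ → 𝒜)
    (h : Sch k → 𝒜) (Q : Sch k → Prop) (n : ℕ) (A : 𝒜) : Prop :=
  Gen T h (fun X => Q X ∧ topologicalKrullDim X.left ≤ n) A

end Pool.Agent.W5h93.WC
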