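import Pool.Agent.H91.L.W5h93_WC_MurreRet

/-!
# Direct sums and Tate twists of strong Murre motives
-/

set_option autoImplicit false
set_option linter.unusedSectionVars false

open CategoryTheory Limits MonoidalCategory

universe v u v' u'

namespace Pool.Agent.W5h93.WC

variable {𝒜 : Type u} [Category.{v} 𝒜] [Preadditive 𝒜] {𝒢 : Type u'} [Category.{v'} 𝒢]
  [Preadditive 𝒢] {H : ℤ → 𝒜 ⥤ 𝒢} [hadd : ∀ j, (H j).Additive]

/-- The zero object. -/
theorem Strong.zero {𝒩 : 𝒜 → Prop} {M : 𝒜} (hM' : 𝒩 M) (hM : IsZero M) : Strong H 𝒩 M := by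
  refine ⟨hM', fun _ => 0, ⟨fun i => comp_zero, fun i j _ => comp_zero, ⟨∅, fun _ _ => rfl, ?_⟩,
    fun i j _ => (H j).map_zero _ _⟩, fun j N f _ _ => ⟨fun i _ => comp_zero, fun _ => comp_zero⟩⟩
  rw [Finset.sum_empty]
  exact hM.eq_of_src _ _

section

variable [HasBinaryBiproducts 𝒜]

/-- The direct sum of two strong Murre motives is a strong Murre motive. -/
theorem Strong.sum {𝒩 : 𝒜 → Prop} {M M' : 𝒜} (hN : 𝒩 M → 𝒩 M' → 𝒩 (M ⊞ M')) (h : Strong H 𝒩 M)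
    (h' : Strong H 𝒩 M') : Strong H 𝒩 (M ⊞ M') := by
  obtain ⟨hM, p, hp, ht⟩ := h
  obtain ⟨hM', p', hp', ht'⟩ := h'
  have hmap : ∀ (f : M ⟶ M) (g : M' ⟶ M'), biprod.map f g =
      biprod.fst ≫ f ≫ biprod.inl + biprod.snd ≫ g ≫ biprod.inr := by
    intro f g
    ext <;> simp
  have hcomp : ∀ (f f' : M ⟶ M) (g g' : M' ⟶ M'), biprod.map f g ≫ biprod.map f' g' =
      biprod.map (f ≫ f') (g ≫ g') := by
    intro f f' g g'
    ext <;> simp
  have hzero : biprod.map (0 : M ⟶ M) (0 : M' ⟶ M') = 0 := by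
    ext <;> simp
  refine ⟨hN hM hM', fun i => biprod.map (p i) (p' i),
    ⟨fun i => ?_, fun i j hij => ?_, ?_, fun i j hij => ?_⟩,
    fun j N f hN' hN => ⟨fun i hi => ?_, fun hf => ?_⟩⟩
  · rw [hcomp, hp.idem, hp'.idem]
  · rw [hcomp, hp.orth i j hij, hp'.orth i j hij, hzero]
  · obtain ⟨s, hs, hsum⟩ := hp.sum
    obtain ⟨s', hs', hsum'⟩ := hp'.sum
    refine ⟨s ∪ s', fun i hi => ?_, ?_⟩
    · rw [Finset.notMem_union] at hi
      rw [hs i hi.1, hs' i hi.2, hzero]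
    · have h1 : ∑ i ∈ s ∪ s', p i = 𝟙 M := by
        rw [← hsum]
        exact (Finset.sum_subset Finset.subset_union_left fun i _ hi => hs i hi).symm
      have h2 : ∑ i ∈ s ∪ s', p' i = 𝟙 M' := by
        rw [← hsum']
        exact (Finset.sum_subset Finset.subset_union_right fun i _ hi => hs' i hi).symm
      simp only [hmap]
      rw [Finset.sum_add_distrib, ← Preadditive.comp_sum, ← Preadditive.comp_sum,
        ← Preadditive.sum_comp, ← Preadditive.sum_comp, h1, h2, Category.id_comp,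
        Category.id_comp, biprod.total]
  · rw [hmap, Functor.map_add]
    simp only [Functor.map_comp]
    rw [hp.kun i j hij, hp'.kun i j hij, zero_comp, zero_comp, comp_zero, comp_zero, add_zero]
  · have h1 := (ht j N (f ≫ biprod.fst) hN' hN).1 i hi
    have h2 := (ht' j N (f ≫ biprod.snd) hN' hN).1 i hi
    rw [Category.assoc] at h1 h2
    beta_reduce
    rw [hmap, Preadditive.comp_add, reassoc_of% h1, reassoc_of% h2, zero_comp, zero_comp, add_zero]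
  · have h1 := (ht j N (f ≫ biprod.fst) hN' hN).2 (hf.comp_right _)
    have h2 := (ht' j N (f ≫ biprod.snd) hN' hN).2 (hf.comp_right _)
    rw [Category.assoc] at h1 h2
    beta_reduce
    rw [hmap, Preadditive.comp_add, reassoc_of% h1, reassoc_of% h2, zero_comp, zero_comp, add_zero]

end

section

variable [MonoidalCategory 𝒜] [MonoidalPreadditive 𝒜] {T : ℤ → 𝒜}

lemma zeroW {M N : 𝒜} (L : 𝒜) : (0 : M ⟶ N) ▷ L = 0 := MonoidalPreadditive.zero_whiskerRight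

lemma faithful (hT : IsTate T) {M N : 𝒜} {f : M ⟶ N} {l : ℤ} (h : f ▷ T l = 0) : f = 0 := by
  obtain ⟨e⟩ := hT.mul l (-l)
  obtain ⟨o⟩ := hT.one
  let e' : T l ⊗ T (-l) ≅ 𝟙_ 𝒜 := e ≪≫ eqToIso (by rw [add_neg_cancel]) ≪≫ o
  have h1 : f ▷ (T l ⊗ T (-l)) = 0 := by
    rw [whiskerRight_tensor, h, zeroW, zero_comp, comp_zero]
  have h2 : f ▷ 𝟙_ 𝒜 = 0 := by
    have h3 : f ▷ 𝟙_ 𝒜 = (M ◁ e'.inv) ≫ (f ▷ (T l ⊗ T (-l))) ≫ (N ◁ e'.hom) := by
      rw [whisker_exchange_assoc, ← MonoidalCategory.whiskerLeft_comp, Iso.inv_hom_id,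
        MonoidalCategory.whiskerLeft_id, Category.comp_id]
    rw [h3, h1, zero_comp, comp_zero]
  rw [whiskerRight_id] at h2
  have h4 : f = (ρ_ M).inv ≫ ((ρ_ M).hom ≫ f ≫ (ρ_ N).inv) ≫ (ρ_ N).hom := by simp
  rw [h4, h2, zero_comp, comp_zero]

/-- Tate twists of strong Murre motives are strong Murre motives. -/
theorem Strong.twist [IsIdempotentComplete 𝒜] {𝒩 : 𝒜 → Prop}
    (hN : ∀ A (l : ℤ), 𝒩 A → 𝒩 (A ⊗ T l)) (hT : IsTate T) (hH : IsHomology T H) {M : 𝒜}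
    (h : Strong H 𝒩 M) (l : ℤ) : Strong H 𝒩 (M ⊗ T l) := by
  obtain ⟨hM, p, hp, ht⟩ := h
  obtain ⟨e⟩ := hT.mul l (-l)
  obtain ⟨o⟩ := hT.one
  let e' : T l ⊗ T (-l) ≅ 𝟙_ 𝒜 := e ≪≫ eqToIso (by rw [add_neg_cancel]) ≪≫ o
  let u : (M ⊗ T l) ⊗ T (-l) ≅ M := α_ M (T l) (T (-l)) ≪≫ whiskerLeftIso M e' ≪≫ ρ_ M
  have hu : ∀ x : M ⟶ M, u.hom ≫ x = (x ▷ T l) ▷ T (-l) ≫ u.hom := by
    intro x
    simp only [u, Iso.trans_hom, whiskerLeftIso_hom, Category.assoc]
    rw [← rightUnitor_naturality, whisker_exchange_assoc, associator_naturality_left_assoc]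
  -- the key
  have key : ∀ {N : 𝒜} (f : N ⟶ M ⊗ T l) (i : ℤ), (f ▷ T (-l) ≫ u.hom) ≫ p (i - 2 * l) = 0 →
      f ≫ (p (i - 2 * l) ▷ T l) = 0 := by
    intro N f i hf
    rw [Category.assoc, hu, ← comp_whiskerRight_assoc] at hf
    apply faithful hT (l := -l)
    rw [← cancel_mono u.hom, hf, zero_comp]
  refine ⟨hN M l hM, fun i => p (i - 2 * l) ▷ T l,
    ⟨fun i => ?_, fun i j hij => ?_, ?_, fun i j hij => ?_⟩, fun j N f hN' hN'' => ?_⟩
  · rw [← comp_whiskerRight, hp.idem]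
  · rw [← comp_whiskerRight, hp.orth _ _ (by omega), zeroW]
  · obtain ⟨s, hs, hsum⟩ := hp.sum
    refine ⟨s.image fun i => i + 2 * l, fun i hi => ?_, ?_⟩
    · rw [hs, zeroW]
      intro h
      apply hi
      rw [Finset.mem_image]
      exact ⟨_, h, by ring⟩
    · rw [Finset.sum_image (fun x _ y _ h => by simpa using h)]
      have h1 : ∀ i ∈ s, p (i + 2 * l - 2 * l) ▷ T l = (tensorRight (T l)).map (p i) := by
        intro i _
        rw [add_sub_cancel_right]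
        rfl
      rw [Finset.sum_congr rfl h1, ← CategoryTheory.Functor.map_sum, hsum]
      exact (tensorRight (T l)).map_id M
  · obtain ⟨N, a, b, h1, h2, h3⟩ := hp.split (i - 2 * l)
    have h4 := hH.tensor _ _ _ _ h3 (hH.tate l) j (by omega)
    rw [← h2, comp_whiskerRight, Functor.map_comp, h4.eq_of_tgt ((H j).map (b ▷ T l)) 0, zero_comp]
  · have h1 : Pure H (j - 2 * l) (N ⊗ T (-l)) := by
      have := hH.tensor _ _ _ _ hN'' (hH.tate (-l))
      rwa [show j + 2 * -l = j - 2 * l by ring] at this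
    refine ⟨fun i hi => key f i ((ht _ _ _ (hN N (-l) hN') h1).1 _ (by omega)), fun hf => key f j ?_⟩
    exact (ht _ _ _ (hN N (-l) hN') h1).2 ((hH.triv _ _ _ _ hf).comp_right _)

end

end Pool.Agent.W5h93.WC
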