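import Pool.Agent.H91.L.W5h93_WC_Quot

/-!
# Null complexes
-/

set_option autoImplicit false
set_option linter.unusedSectionVars false

open CategoryTheory Limits Pretriangulated ZeroObject MonoidalCategory

universe v u

namespace Pool.Agent.W5h93.WC

variable {𝒜 : Type u} [Category.{v} 𝒜] [Preadditive 𝒜] [HasBinaryBiproducts 𝒜] [HasZeroObject 𝒜]
  (V : Cls 𝒜)

lemma null_of_homotopy {K : CochainComplex 𝒜 ℤ}
    (H : Homotopy (𝟙 (((qf V).mapHomologicalComplex (ComplexShape.up ℤ)).obj K)) 0) :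
    Null V.prop K := by
  have hsurj : ∀ i j, ∃ h : K.X i ⟶ K.X j, (qf V).map h = H.hom i j := fun i j =>
    (qf V).map_surjective _
  choose h hh using hsurj
  refine ⟨h, fun i => ?_⟩
  rw [← qf_map_eq_zero_iff]
  have h1 := H.comm i
  rw [dNext_eq _ (show (ComplexShape.up ℤ).Rel i (i + 1) by simp),
    prevD_eq _ (show (ComplexShape.up ℤ).Rel (i - 1) i by simp)] at h1
  rw [Functor.map_sub, Functor.map_add, Functor.map_comp, Functor.map_comp, hh, hh,
    (qf V).map_id]
  rw [sub_eq_zero]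
  simp only [HomologicalComplex.id_f, Functor.mapHomologicalComplex_obj_d,
    HomologicalComplex.zero_f, add_zero] at h1
  exact h1

lemma homotopy_of_null {K : CochainComplex 𝒜 ℤ} (hK : Null V.prop K) :
    Nonempty (Homotopy (𝟙 (((qf V).mapHomologicalComplex (ComplexShape.up ℤ)).obj K)) 0) := by
  obtain ⟨h, hh⟩ := hK
  refine ⟨⟨fun i j => if (ComplexShape.up ℤ).Rel j i then (qf V).map (h i j) else 0,
    fun i j hij => by rw [if_neg hij], fun i => ?_⟩⟩
  rw [dNext_eq _ (show (ComplexShape.up ℤ).Rel i (i + 1) by simp),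
    prevD_eq _ (show (ComplexShape.up ℤ).Rel (i - 1) i by simp)]
  rw [if_pos (by simp), if_pos (by simp)]
  have h1 := (qf_map_eq_zero_iff V _).mpr (hh i)
  rw [Functor.map_sub, Functor.map_add, Functor.map_comp, Functor.map_comp, (qf V).map_id,
    sub_eq_zero] at h1
  simp only [HomologicalComplex.id_f, Functor.mapHomologicalComplex_obj_d,
    HomologicalComplex.zero_f, add_zero]
  exact h1

lemma null_iff (K : HomotopyCategory 𝒜 (ComplexShape.up ℤ)) :
    Null V.prop K.as ↔ IsZero ((qh V).obj K) := by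
  have h : (qh V).obj K = (HomotopyCategory.quotient _ _).obj
    (((qf V).mapHomologicalComplex (ComplexShape.up ℤ)).obj K.as) := rfl
  rw [h, HomotopyCategory.isZero_quotient_obj_iff]
  exact ⟨homotopy_of_null V, fun ⟨H⟩ => null_of_homotopy V H⟩

variable {V}

lemma Null.of_iso {K L : HomotopyCategory 𝒜 (ComplexShape.up ℤ)} (e : K ≅ L)
    (h : Null V.prop K.as) : Null V.prop L.as := by
  rw [null_iff] at h ⊢
  exact h.of_iso ((qh V).mapIso e).symm

lemma Null.of_retract {K L : HomotopyCategory 𝒜 (ComplexShape.up ℤ)} (s : K ⟶ L) (r : L ⟶ K)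
    (hs : s ≫ r = 𝟙 K) (h : Null V.prop L.as) : Null V.prop K.as := by
  rw [null_iff] at h ⊢
  rw [IsZero.iff_id_eq_zero, ← (qh V).map_id, ← hs, (qh V).map_comp,
    h.eq_of_tgt ((qh V).map s) 0, zero_comp]

lemma Null.shift {K : HomotopyCategory 𝒜 (ComplexShape.up ℤ)} (h : Null V.prop K.as) (n : ℤ) :
    Null V.prop (K⟦n⟧).as := by
  rw [null_iff] at h ⊢
  exact ((shiftFunctor _ n).map_isZero h).of_iso (((qh V).commShiftIso n).app K)

lemma null_two (T : Triangle (HomotopyCategory 𝒜 (ComplexShape.up ℤ)))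
    (hT : T ∈ distTriang _) :
    (Null V.prop T.obj₁.as → Null V.prop T.obj₂.as → Null V.prop T.obj₃.as) ∧
    (Null V.prop T.obj₁.as → Null V.prop T.obj₃.as → Null V.prop T.obj₂.as) ∧
    (Null V.prop T.obj₂.as → Null V.prop T.obj₃.as → Null V.prop T.obj₁.as) := by
  have h := (qh V).map_distinguished T hT
  simp only [null_iff]
  exact ⟨fun h1 h2 => Triangle.isZero₃_of_isZero₁₂ _ h h1 h2,
    fun h1 h3 => Triangle.isZero₂_of_isZero₁₃ _ h h1 h3,
    fun h2 h3 => Triangle.isZero₁_of_isZero₂₃ _ h h2 h3⟩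

lemma null_cpx {M : 𝒜} : Null V.prop (cpx M).as ↔ V.prop M := by
  have h1 : (cpx M).as = (HomologicalComplex.single 𝒜 (ComplexShape.up ℤ) 0).obj M := rfl
  rw [h1]
  constructor
  · rintro ⟨h, hh⟩
    have h2 := hh 0
    rw [HomologicalComplex.single_obj_d, HomologicalComplex.single_obj_d] at h2
    simp only [zero_comp, comp_zero, add_zero, sub_zero] at h2
    exact V.retract M _ (HomologicalComplex.singleObjXSelf (ComplexShape.up ℤ) 0 M).inv
      (HomologicalComplex.singleObjXSelf (ComplexShape.up ℤ) 0 M).hom (Iso.inv_hom_id _)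
      (of_factors_id h2)
  · intro hM
    refine ⟨fun _ _ => 0, fun i => ?_⟩
    simp only [comp_zero, zero_comp, add_zero, sub_zero]
    by_cases hi : i = 0
    · subst hi
      refine ⟨M, (HomologicalComplex.singleObjXSelf (ComplexShape.up ℤ) 0 M).hom,
        (HomologicalComplex.singleObjXSelf (ComplexShape.up ℤ) 0 M).inv, hM, ?_⟩
      rw [Iso.hom_inv_id]
    · have h3 : IsZero (((HomologicalComplex.single 𝒜 (ComplexShape.up ℤ) 0).obj M).X i) :=
        HomologicalComplex.isZero_single_obj_X _ _ _ _ hi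
      rw [h3.eq_of_src (𝟙 _) 0]
      exact factors_zero V _ _

lemma Null.map [MonoidalCategory 𝒜] [MonoidalPreadditive 𝒜] (M : 𝒜)
    (hV : ∀ A, V.prop A → V.prop (A ⊗ M)) {K : HomotopyCategory 𝒜 (ComplexShape.up ℤ)}
    (h : Null V.prop K.as) : Null V.prop (tens M K).as := by
  obtain ⟨h, hh⟩ := h
  have h1 : (tens M K).as = ((tensorRight M).mapHomologicalComplex (ComplexShape.up ℤ)).obj K.as :=
    rfl
  rw [h1]
  refine ⟨fun i j => (tensorRight M).map (h i j), fun i => ?_⟩
  obtain ⟨C, a, b, hC, hab⟩ := hh i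
  refine ⟨C ⊗ M, (tensorRight M).map a, (tensorRight M).map b, hV C hC, ?_⟩
  have h2 := congrArg (tensorRight M).map hab
  rw [Functor.map_comp, Functor.map_sub, Functor.map_add, Functor.map_comp,
    Functor.map_comp, (tensorRight M).map_id] at h2
  exact h2

end Pool.Agent.W5h93.WC
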